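import Pool.Agent.Helper26.GT.Sub

/-!
# The angular metric of a metric graph
-/

set_option autoImplicit false

namespace Pool.Agent.Helper26.GT

open Pool.Agent.Helper50.GT Real

section

variable {A : Type} {Γ : WG A}

theorem th_eq {x y : Pt Γ} (h : Th x y = 0) : x = y := by
  obtain ⟨A', Γ', q, hS, hl⟩ := exists_sub Γ [x, y]
  obtain ⟨a, rfl⟩ := hl x (by simp)
  obtain ⟨b, rfl⟩ := hl y (by simp)
  rw [hS.th] at h
  obtain ⟨p, hp, h1⟩ := exists_geod (by rw [h]; exact pi_pos)
  rw [h] at h1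
  cases p with
  | nil => rfl
  | cons h2 p =>
    have h3 := Γ'.pos h2
    have h4 := wt_nonneg Γ'.nonneg p
    rw [wt_cons] at h1
    linarith

/-- The truncated distance is attained by a chain if it is less than `π`. -/
theorem exists_ch {x y : Pt Γ} (h : Th x y < π) : Ch x y (Th x y) := by
  obtain ⟨A', Γ', q, hS, hl⟩ := exists_sub Γ [x, y]
  obtain ⟨a, rfl⟩ := hl x (by simp)
  obtain ⟨b, rfl⟩ := hl y (by simp)
  rw [hS.th] at h ⊢
  obtain ⟨p, hp, h1⟩ := exists_geod h
  rw [← h1]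
  exact hS.map (ch_walk p)

/-- One half of the alternative. -/
theorem alt_aux {a m b : A} {g : Γ.G.Walk a m} {d : Γ.G.Walk m b} (hg : g.IsPath) (hd : d.IsPath)
    (hne : ∀ _ : 1 ≤ g.length, ∀ _ : 1 ≤ d.length, g.penultimate ≠ d.snd)
    (h1 : wt Γ.w g < π) (h2 : wt Γ.w d < π) :
    cos (Th (vtx a : Pt Γ) (vtx b)) ≤ cos (wt Γ.w g + wt Γ.w d) := by
  have h0 := wt_nonneg Γ.nonneg g
  have h0' := wt_nonneg Γ.nonneg d
  have hpath := Γ.circ.append_isPath hg hd hne (by linarith)
  have hle := Th.le_pi (vtx a : Pt Γ) (vtx b)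
  rcases lt_or_eq_of_le hle with hlt | heq
  · obtain ⟨p, hp, h3⟩ := exists_geod hlt
    by_cases hpe : p = g.append d
    · rw [← h3, hpe, wt_append]
    · have h4 := Γ.circ.two_paths hp hpath hpe
      rw [wt_append, h3] at h4
      rw [← cos_two_pi_sub (wt Γ.w g + wt Γ.w d)]
      exact cos_le_cos_of_nonneg_of_le_pi (by linarith) hle (by linarith)
  · rw [heq, cos_pi]
    exact neg_one_le_cos _

theorem alt_vtx {a b c m : A} (h : Th (vtx a : Pt Γ) (vtx b) < π)
    (h1 : Th (vtx a : Pt Γ) (vtx m) + Th (vtx m : Pt Γ) (vtx b) = Th (vtx a : Pt Γ) (vtx b))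
    (h2 : Th (vtx c : Pt Γ) (vtx m) < π) :
    cos (Th (vtx c : Pt Γ) (vtx b)) ≤ cos (Th (vtx c : Pt Γ) (vtx m) + Th (vtx m : Pt Γ) (vtx b)) ∨
      cos (Th (vtx c : Pt Γ) (vtx a)) ≤
        cos (Th (vtx c : Pt Γ) (vtx m) + Th (vtx a : Pt Γ) (vtx m)) := by
  have n1 := Th.nonneg (vtx a : Pt Γ) (vtx m)
  have n2 := Th.nonneg (vtx m : Pt Γ) (vtx b)
  obtain ⟨p, hp, ep⟩ := exists_geod (show Th (vtx m : Pt Γ) (vtx b) < π by linarith)
  obtain ⟨q, hq, eq⟩ := exists_geod (show Th (vtx a : Pt Γ) (vtx m) < π by linarith)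
  obtain ⟨g, hg, eg⟩ := exists_geod h2
  rw [← eg, ← ep, ← eq]
  by_cases hgp : ∀ _ : 1 ≤ g.length, ∀ _ : 1 ≤ p.length, g.penultimate ≠ p.snd
  · exact Or.inl (alt_aux hg hp hgp (by linarith) (by linarith))
  · right
    rw [← wt_reverse Γ.symm q]
    refine alt_aux hg hq.reverse (fun hl1 hl2 he => ?_) (by linarith)
      (by rw [wt_reverse Γ.symm]; linarith)
    push Not at hgp
    obtain ⟨-, hl3, he'⟩ := hgp
    -- the geodesic backtracks at `m`
    rw [he'] at he
    have hq1 : 1 ≤ q.length := by rwa [SimpleGraph.Walk.length_reverse] at hl2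
    cases p with
    | nil => simp at hl3
    | @cons _ e _ hme p' =>
      have e1 : e = q.reverse.snd := by
        rw [← he]
        simp
      have hqr : wt Γ.w q.reverse = wt Γ.w q := wt_reverse Γ.symm q
      have hle : Th (vtx a : Pt Γ) (vtx b) < wt Γ.w q + wt Γ.w (SimpleGraph.Walk.cons hme p') := by
        rw [← hqr]
        generalize q.reverse = r at e1 hqr hl2
        cases r with
        | nil => simp at hl2
        | @cons _ e' _ hme' r' =>
          have e2 : e = e' := by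
            rw [e1]
            simp
          subst e2
          have h5 := th_le_walk (r'.reverse.append p')
          rw [wt_append, wt_reverse Γ.symm] at h5
          have h6 := Γ.pos hme
          rw [wt_cons, wt_cons]
          linarith
      linarith

/-- Intermediate points: any third point leaves one of the two directions backwards. -/
theorem th_mid {x y : Pt Γ} {s : ℝ} (h : Th x y < π) (h0 : 0 ≤ s) (h1 : s ≤ Th x y) :
    ∃ m, Th x m = s ∧ Th m y = Th x y - s ∧ ∀ p, Th p m < π →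
      cos (Th p y) ≤ cos (Th p m + Th m y) ∨ cos (Th p x) ≤ cos (Th p m + Th x m) := by
  obtain ⟨m, h2, h3⟩ := (exists_ch h).inter h0 h1
  have h4 := h2.th_le
  have h5 := h3.th_le
  have h6 := Th.tri x m y
  have h7 : Th x m = s := by linarith
  have h8 : Th m y = Th x y - s := by linarith
  refine ⟨m, h7, h8, fun p hp => ?_⟩
  have h9 : Th x m + Th m y = Th x y := by linarith
  obtain ⟨A', Γ', q, hS, hl⟩ := exists_sub Γ [x, y, m, p]
  obtain ⟨a, rfl⟩ := hl x (by simp)
  obtain ⟨b, rfl⟩ := hl y (by simp)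
  obtain ⟨n, rfl⟩ := hl m (by simp)
  obtain ⟨c, rfl⟩ := hl p (by simp)
  simp only [hS.th] at h h9 hp ⊢
  exact alt_vtx h h9 hp

end

end Pool.Agent.Helper26.GT
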