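import Pool.Agent.Helper37.CH.Loc

/-!
# Metric spaces with uniform charts
-/

set_option autoImplicit false

namespace Pool.Agent.Helper26.GT

open Pool.Agent.Helper37.CH Filter Topology

/-- `P` is locally isometric to the spaces `C i`, at the uniform scale `ρ`. -/
structure Atlas (P : Type) [MetricSpace P] {I : Type} (C : I → Type) [∀ i, MetricSpace (C i)]
    (Good : I → P → Prop) (ch : ∀ i, P → C i) (ρ : ℝ) : Prop where
  pos : 0 < ρ
  cov : ∀ x, ∃ i, ∀ y, dist x y < ρ → Good i y
  iso : ∀ i x y, Good i x → dist x y < ρ → dist (ch i x) (ch i y) = dist x y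
  surj : ∀ i x z, Good i x → dist (ch i x) z < ρ → ∃ y, ch i y = z ∧ dist x y = dist (ch i x) z

variable {P : Type} [MetricSpace P] {I : Type} {C : I → Type} [∀ i, MetricSpace (C i)]
  {Good : I → P → Prop} {ch : ∀ i, P → C i} {ρ : ℝ}

theorem Atlas.locCat (h : Atlas P C Good ch ρ)
    (hS : ∀ (i : I) (f g : C i) (t : ℝ), 0 ≤ t → t ≤ 1 → ∃ z, dist f z = t * dist f g ∧
      dist z g = (1 - t) * dist f g ∧ ∀ p, dist p z ^ 2 ≤ (1 - t) * dist p f ^ 2 +
        t * dist p g ^ 2 - t * (1 - t) * dist f g ^ 2) : LocCat P (ρ / 2) := by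
  have hρ := h.pos
  refine ⟨by linarith, fun x y hxy t h0 h1 => ?_⟩
  obtain ⟨i, hi⟩ := h.cov x
  have gx := hi x (by rw [dist_self]; exact hρ)
  have gy := hi y (by linarith)
  obtain ⟨z', e1, e2, e3⟩ := hS i (ch i x) (ch i y) t h0 h1
  have hd := h.iso i x y gx (by linarith)
  rw [hd] at e1 e2 e3
  have h2 : t * dist x y ≤ dist x y := mul_le_of_le_one_left dist_nonneg h1
  obtain ⟨z, rfl, e4⟩ := h.surj i x z' gx (by rw [e1]; linarith)
  rw [e1] at e4
  have gz := hi z (by rw [e4]; linarith)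
  have hzy : dist z y < ρ := by
    have := dist_triangle z x y
    rw [dist_comm z x, e4] at this
    linarith
  refine ⟨z, e4, ?_, fun p hpx hpy => ?_⟩
  · rw [← h.iso i z y gz hzy, e2]
  · have hzp : dist z p < ρ := by
      have := dist_triangle z x p
      rw [dist_comm z x, e4, dist_comm x p] at this
      linarith
    have h3 := e3 (ch i p)
    rw [dist_comm (ch i p), h.iso i z p gz hzp, dist_comm (ch i p) (ch i x),
      h.iso i x p gx (by rw [dist_comm]; linarith), dist_comm (ch i p) (ch i y),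
      h.iso i y p gy (by rw [dist_comm]; linarith)] at h3
    rw [dist_comm p z, dist_comm p x, dist_comm p y]
    exact h3

theorem Atlas.complete (h : Atlas P C Good ch ρ) (hC : ∀ i, CompleteSpace (C i)) :
    CompleteSpace P := by
  have hρ := h.pos
  refine Metric.complete_of_cauchySeq_tendsto fun u hu => ?_
  obtain ⟨N, hN⟩ := Metric.cauchySeq_iff.1 hu (ρ / 2) (by linarith)
  obtain ⟨i, hi⟩ := h.cov (u N)
  have good : ∀ n ≥ N, Good i (u n) := fun n hn => hi _ (by
    have := hN N le_rfl n hn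
    linarith)
  have hcau : CauchySeq fun n => ch i (u n) := by
    rw [Metric.cauchySeq_iff] at hu ⊢
    intro ε hε
    obtain ⟨M, hM⟩ := hu ε hε
    refine ⟨max M N, fun m hm n hn => ?_⟩
    rw [h.iso i _ _ (good m (le_trans (le_max_right _ _) hm)) (by
      have := hN m (le_trans (le_max_right _ _) hm) n (le_trans (le_max_right _ _) hn)
      linarith)]
    exact hM m (le_trans (le_max_left _ _) hm) n (le_trans (le_max_left _ _) hn)
  have := hC i
  obtain ⟨c, hc⟩ := cauchySeq_tendsto_of_complete hcau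
  have hdN : dist (ch i (u N)) c ≤ ρ / 2 := by
    have h1 : Tendsto (fun n => dist (ch i (u N)) (ch i (u n))) atTop
        (𝓝 (dist (ch i (u N)) c)) := tendsto_const_nhds.dist hc
    refine le_of_tendsto h1 (eventually_atTop.2 ⟨N, fun n hn => ?_⟩)
    have h2 := hN N le_rfl n hn
    rw [h.iso i _ _ (good N le_rfl) (by linarith)]
    exact h2.le
  obtain ⟨y, rfl, hy⟩ := h.surj i (u N) c (good N le_rfl) (by linarith)
  refine ⟨y, ?_⟩
  rw [tendsto_iff_dist_tendsto_zero] at hc ⊢
  refine hc.congr' (eventually_atTop.2 ⟨N, fun n hn => ?_⟩)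
  refine h.iso i _ _ (good n hn) ?_
  have h3 := dist_triangle (u n) (u N) y
  have h4 := hN n hn N le_rfl
  linarith

end Pool.Agent.Helper26.GT
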