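import Pool.Agent.Helper26.GT.Cone

/-!
# Completeness of the cone over a metric graph
-/

set_option autoImplicit false

namespace Pool.Agent.Helper26.GT

open Pool.Agent.Helper50.GT Real Filter Topology

variable {A : Type} {Γ : WG A}

/-- The distance of two points is at most the sum of the differences of two coordinates if the
support of the first point contains the support of the second one. -/
theorem dist_le_of_on {x y : CPt Γ} (h : ∀ a, y.f a ≠ 0 → x.f a ≠ 0) {ε : ℝ} (hε0 : 0 ≤ ε)
    (hε : ∀ a, |x.f a - y.f a| ≤ ε) : dist x y ≤ 2 * ε := by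
  have key : ∀ a b, (a = b ∨ Γ.G.Adj a b) → On x.f a b → dist x y ≤ 2 * ε := by
    intro a b hab hon
    have hon' : On y.f a b := fun c h1 h2 => by
      by_contra hne
      exact h c hne (hon c h1 h2)
    have ha := hε a
    have hb := hε b
    have h0 := abs_nonneg (x.f a - y.f a)
    rcases hab with rfl | hab
    · rw [CLoc.dist_eq (Or.inl ⟨a, hon, hon', rfl⟩)]
      linarith
    · rw [CLoc.dist_eq (Or.inr ⟨a, b, hab, hon, hon', rfl⟩)]
      have := sqrt_qf_le (Γ.w a b) (x.f a - y.f a) (x.f b - y.f b)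
      linarith
  rcases x.ex with h0 | ⟨a, b, hab, hon⟩
  · by_cases hA : Nonempty A
    · obtain ⟨a⟩ := hA
      exact key a a (Or.inl rfl) fun c _ _ => h0 c
    · have : x = y := CPt.ext fun a => absurd ⟨a⟩ hA
      rw [this, dist_self]
      positivity
  · exact key a b hab hon

/-- A point of the cone has at most two coordinates different from zero. -/
theorem CPt.two (x : CPt Γ) {a b c : A} (ha : x.f a ≠ 0) (hb : x.f b ≠ 0) (hc : x.f c ≠ 0)
    (hab : a ≠ b) (hac : a ≠ c) : b = c := by
  rcases x.ex with h0 | ⟨u, v, huv, hon⟩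
  · exact absurd (h0 a) ha
  · have key : ∀ e, x.f e ≠ 0 → e = u ∨ e = v := by
      intro e he
      by_contra hcon
      push Not at hcon
      exact he (hon e hcon.1 hcon.2)
    rcases key a ha with rfl | rfl <;> rcases key b hb with rfl | rfl <;>
      rcases key c hc with rfl | rfl <;> first | rfl | exact absurd rfl hab | exact absurd rfl hac

theorem CPt.adj (x : CPt Γ) {a b : A} (ha : x.f a ≠ 0) (hb : x.f b ≠ 0) (hab : a ≠ b) :
    Γ.G.Adj a b := by
  rcases x.ex with h0 | ⟨u, v, huv, hon⟩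
  · exact absurd (h0 a) ha
  · have key : ∀ e, x.f e ≠ 0 → e = u ∨ e = v := by
      intro e he
      by_contra hcon
      push Not at hcon
      exact he (hon e hcon.1 hcon.2)
    rcases huv with rfl | huv
    · rcases key a ha with rfl | rfl <;> rcases key b hb with rfl | rfl <;> exact absurd rfl hab
    · rcases key a ha with rfl | rfl <;> rcases key b hb with rfl | rfl
      · exact absurd rfl hab
      · exact huv
      · exact huv.symm
      · exact absurd rfl hab

/-- **Completeness.** -/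
theorem cone_complete {σ : ℝ} (hσ : 0 < σ) (hσ1 : σ ≤ 1)
    (h : ∀ a b, Γ.G.Adj a b → σ ≤ sin (Γ.w a b)) : CompleteSpace (CPt Γ) := by
  refine Metric.complete_of_cauchySeq_tendsto fun u hu => ?_
  have hσi : 0 < σ⁻¹ := inv_pos.2 hσ
  have hlip := coord_lip (Γ := Γ) hσ hσ1 h
  have hca : ∀ a, CauchySeq fun n => (u n).f a := by
    intro a
    rw [Metric.cauchySeq_iff'] at hu ⊢
    intro ε hε
    obtain ⟨N, hN⟩ := hu (σ * ε) (mul_pos hσ hε)
    refine ⟨N, fun n hn => ?_⟩
    rw [Real.dist_eq]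
    refine lt_of_le_of_lt (hlip a (u n) (u N)) ?_
    have := mul_lt_mul_of_pos_left (hN n hn) hσi
    rwa [← mul_assoc, inv_mul_cancel₀ hσ.ne', one_mul] at this
  choose F hF using fun a => cauchySeq_tendsto_of_complete (hca a)
  -- uniform convergence
  have huni : ∀ ε > 0, ∃ N, ∀ n ≥ N, ∀ a, |(u n).f a - F a| ≤ ε := by
    intro ε hε
    rw [Metric.cauchySeq_iff] at hu
    obtain ⟨N, hN⟩ := hu (σ * ε) (mul_pos hσ hε)
    refine ⟨N, fun n hn a => ?_⟩
    have h1 : Tendsto (fun m => |(u n).f a - (u m).f a|) atTop (𝓝 |(u n).f a - F a|) :=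
      ((tendsto_const_nhds.sub (hF a))).abs
    refine le_of_tendsto h1 (eventually_atTop.2 ⟨N, fun m hm => ?_⟩)
    refine (hlip a (u n) (u m)).trans ?_
    have := (mul_lt_mul_of_pos_left (hN n hn m hm) hσi).le
    rwa [← mul_assoc, inv_mul_cancel₀ hσ.ne', one_mul] at this
  have hF0 : ∀ a, 0 ≤ F a := fun a => ge_of_tendsto' (hF a) fun n => (u n).nonneg a
  have hev : ∀ a, F a ≠ 0 → ∀ᶠ n in atTop, (u n).f a ≠ 0 := by
    intro a ha
    exact (hF a).eventually_ne ha
  -- the limit
  obtain ⟨y, hy⟩ : ∃ y : CPt Γ, ∀ a, y.f a = F a := by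
    by_cases h0 : ∀ a, F a = 0
    · exact ⟨⟨F, hF0, Or.inl h0⟩, fun a => rfl⟩
    · push Not at h0
      obtain ⟨a, ha⟩ := h0
      by_cases h1 : ∀ b, b ≠ a → F b = 0
      · exact ⟨⟨F, hF0, Or.inr ⟨a, a, Or.inl rfl, fun c hc _ => h1 c hc⟩⟩, fun a => rfl⟩
      · push Not at h1
        obtain ⟨b, hba, hb⟩ := h1
        obtain ⟨n, hn1, hn2⟩ := ((hev a ha).and (hev b hb)).exists
        refine ⟨⟨F, hF0, Or.inr ⟨a, b, Or.inr ((u n).adj hn1 hn2 (Ne.symm hba)),
          fun c h2 h3 => ?_⟩⟩, fun a => rfl⟩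
        by_contra hc
        obtain ⟨m, hm1, hm2, hm3⟩ := ((hev a ha).and ((hev b hb).and (hev c hc))).exists
        exact h3 ((u m).two hm1 hm2 hm3 (Ne.symm hba) (Ne.symm h2)).symm
  refine ⟨y, ?_⟩
  have hsup : ∀ᶠ n in atTop, ∀ a, y.f a ≠ 0 → (u n).f a ≠ 0 := by
    rcases y.ex with h0 | ⟨a, b, hab, hon⟩
    · exact Eventually.of_forall fun n a ha => absurd (h0 a) ha
    · have e1 : ∀ᶠ n in atTop, y.f a ≠ 0 → (u n).f a ≠ 0 := by
        by_cases ha : F a = 0
        · exact Eventually.of_forall fun n h' => absurd ((hy a).trans ha) h'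
        · exact (hev a ha).mono fun n hn _ => hn
      have e2 : ∀ᶠ n in atTop, y.f b ≠ 0 → (u n).f b ≠ 0 := by
        by_cases hb : F b = 0
        · exact Eventually.of_forall fun n h' => absurd ((hy b).trans hb) h'
        · exact (hev b hb).mono fun n hn _ => hn
      filter_upwards [e1, e2] with n h1 h2 c hc
      by_cases hca : c = a
      · subst hca
        exact h1 hc
      · by_cases hcb : c = b
        · subst hcb
          exact h2 hc
        · exact absurd (hon c hca hcb) hc
  rw [Metric.tendsto_atTop]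
  intro ε hε
  obtain ⟨N, hN⟩ := huni (ε / 3) (by linarith)
  obtain ⟨M, hM⟩ := eventually_atTop.1 hsup
  refine ⟨max N M, fun n hn => ?_⟩
  have h1 := dist_le_of_on (hM n (le_trans (le_max_right _ _) hn)) (by linarith : 0 ≤ ε / 3)
    fun a => by
      rw [hy a]
      exact hN n (le_trans (le_max_left _ _) hn) a
  linarith

end Pool.Agent.Helper26.GT
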