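import Pool.Agent.Helper26.GT.Pol
import Pool.Agent.Helper50.GT.Cone

/-!
# The cone over a metric graph
-/

set_option autoImplicit false

namespace Pool.Agent.Helper26.GT

open Pool.Agent.Helper50.GT Real

variable {A : Type} {Γ : WG A}

theorem angSp (Γ : WG A) : AngSp (fun x y : Pt Γ => Th x y) where
  self := Th.self
  symm := Th.symm
  eq _ _ h := th_eq h
  le_pi := Th.le_pi
  tri := Th.tri
  mid _ _ _ h h0 h1 := th_mid h h0 h1

/-- `x` and `y` lie in a common closed sector and have distance `s` in it. -/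
def CLoc (x y : CPt Γ) (s : ℝ) : Prop :=
  (∃ a, On x.f a a ∧ On y.f a a ∧ s = |x.f a - y.f a|) ∨
    ∃ a b, Γ.G.Adj a b ∧ On x.f a b ∧ On y.f a b ∧
      s = √(qf (Γ.w a b) (x.f a - y.f a) (x.f b - y.f b))

theorem qf_neg (w u v : ℝ) : qf w (-u) (-v) = qf w u v := by
  unfold qf
  ring

theorem CLoc.symm {x y : CPt Γ} {s : ℝ} (h : CLoc x y s) : CLoc y x s := by
  rcases h with ⟨a, h1, h2, rfl⟩ | ⟨a, b, hab, h1, h2, rfl⟩
  · exact Or.inl ⟨a, h2, h1, abs_sub_comm _ _⟩
  · refine Or.inr ⟨a, b, hab, h2, h1, ?_⟩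
    rw [← qf_neg, neg_sub, neg_sub]

theorem CLoc.nonneg {x y : CPt Γ} {s : ℝ} (h : CLoc x y s) : 0 ≤ s := by
  rcases h with ⟨a, h1, h2, rfl⟩ | ⟨a, b, hab, h1, h2, rfl⟩
  · exact abs_nonneg _
  · exact sqrt_nonneg _

/-- Chains of points of the cone with consecutive ones in common closed sectors. -/
inductive CCh : CPt Γ → CPt Γ → ℝ → Prop
  | nil (x : CPt Γ) : CCh x x 0
  | cons {x y z : CPt Γ} {s t : ℝ} : CLoc x y s → CCh y z t → CCh x z (s + t)

theorem CCh.single {x y : CPt Γ} {s : ℝ} (h : CLoc x y s) : CCh x y s := by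
  have := CCh.cons h (CCh.nil y)
  rwa [add_zero] at this

theorem CCh.append {x y z : CPt Γ} {s t : ℝ} (h : CCh x y s) (h' : CCh y z t) :
    CCh x z (s + t) := by
  induction h with
  | nil x => rwa [zero_add]
  | cons h1 _ ih =>
    rw [add_assoc]
    exact CCh.cons h1 (ih h')

/-- The law of cosines in a closed sector. -/
theorem qf_edge {r s : ℝ} {hr : 0 ≤ r} {hs : 0 ≤ s} {x y : Pt Γ} {a b : A} (hab : Γ.G.Adj a b)
    (hx : On x.f a b) (hy : On y.f a b) :
    qf (Γ.w a b) ((pc r hr x).f a - (pc s hs y).f a) ((pc r hr x).f b - (pc s hs y).f b) =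
      lc r s (Γ.w a b * |x.f a - y.f a|) := by
  obtain ⟨e1, e2⟩ := pc_cos (r := r) (hr := hr) hab hx
  obtain ⟨e3, e4⟩ := pc_cos (r := s) (hr := hs) hab hy
  have sx := x.sum hab.ne hx
  have sy := y.sum hab.ne hy
  have hw := Γ.pos hab
  have h1 : cos (Γ.w a b * |x.f a - y.f a|) = cos (Γ.w a b * x.f b - Γ.w a b * y.f b) := by
    rw [← cos_abs (Γ.w a b * x.f b - Γ.w a b * y.f b), ← mul_sub, abs_mul, abs_of_pos hw,
      ← abs_neg (x.f b - y.f b), show -(x.f b - y.f b) = x.f a - y.f a by linarith]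
  have k1 : ((pc r hr x).f a - (pc s hs y).f a) + ((pc r hr x).f b - (pc s hs y).f b) *
      cos (Γ.w a b) = r * cos (Γ.w a b * x.f b) - s * cos (Γ.w a b * y.f b) := by
    linear_combination e3 - e1
  have k2 : ((pc r hr x).f b - (pc s hs y).f b) * sin (Γ.w a b) =
      r * sin (Γ.w a b * x.f b) - s * sin (Γ.w a b * y.f b) := by
    linear_combination e4 - e2
  rw [lc, h1, cos_sub, qf_eq, k1, k2]
  linear_combination r ^ 2 * sin_sq_add_cos_sq (Γ.w a b * x.f b) +
    s ^ 2 * sin_sq_add_cos_sq (Γ.w a b * y.f b)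

theorem sqrt_lc_zero {r s : ℝ} : √(lc r s 0) = |r - s| := by
  rw [lc, cos_zero, ← sqrt_sq_eq_abs]
  congr 1
  ring

theorem Loc.cone {x y : Pt Γ} {t : ℝ} (h : Loc x y t) {r s : ℝ} (hr : 0 ≤ r) (hs : 0 ≤ s) :
    CLoc (pc r hr x) (pc s hs y) (√(lc r s t)) := by
  rcases h with ⟨rfl, rfl⟩ | ⟨a, b, hab, hx, hy, rfl⟩
  · rcases x.cases with ⟨a, rfl⟩ | ⟨a, b, hab, hon, ha, hb⟩
    · refine Or.inl ⟨a, pc_on (vtx_on.2 (Or.inl rfl)), pc_on (vtx_on.2 (Or.inl rfl)), ?_⟩
      rw [sqrt_lc_zero, pc_f, pc_f, sd_vtx, mul_one, mul_one]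
    · refine Or.inr ⟨a, b, hab, pc_on hon, pc_on hon, ?_⟩
      rw [qf_edge hab hon hon, sub_self, abs_zero, mul_zero]
  · exact Or.inr ⟨a, b, hab, pc_on hx, pc_on hy, by rw [qf_edge hab hx hy]⟩

/-- The point where the segment crosses a ray. -/
theorem crossing {r s φ ψ : ℝ} (hr : 0 ≤ r) (hs : 0 ≤ s) (h1 : 0 ≤ φ) (h2 : 0 ≤ ψ)
    (h3 : φ + ψ < π) : ∃ ρ : ℝ, 0 ≤ ρ ∧ √(lc r ρ φ) + √(lc ρ s ψ) = √(lc r s (φ + ψ)) := by
  rcases eq_or_lt_of_le hr with rfl | hr'
  · refine ⟨0, le_rfl, ?_⟩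
    simp [lc]
  rcases eq_or_lt_of_le hs with rfl | hs'
  · refine ⟨0, le_rfl, ?_⟩
    simp [lc]
  rcases eq_or_lt_of_le h1 with rfl | h1'
  · refine ⟨r, hr, ?_⟩
    rw [sqrt_lc_zero, sub_self, abs_zero, zero_add, zero_add]
  rcases eq_or_lt_of_le h2 with rfl | h2'
  · refine ⟨s, hs, ?_⟩
    rw [sqrt_lc_zero, sub_self, abs_zero, add_zero, add_zero]
  have s1 : 0 < sin φ := sin_pos_of_pos_of_lt_pi h1' (by linarith)
  have s2 : 0 < sin ψ := sin_pos_of_pos_of_lt_pi h2' (by linarith)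
  have s3 : 0 < sin (φ + ψ) := sin_pos_of_pos_of_lt_pi (by linarith) h3
  have hB : 0 < r * sin φ := mul_pos hr' s1
  have hE : 0 < s * sin ψ := mul_pos hs' s2
  obtain ⟨t, ht⟩ : ∃ t, t = r * sin φ / (r * sin φ + s * sin ψ) := ⟨_, rfl⟩
  have hD : 0 < r * sin φ + s * sin ψ := by linarith
  have ht0 : 0 ≤ t := by
    rw [ht]
    positivity
  have ht1 : t ≤ 1 := by
    rw [ht, div_le_one hD]
    linarith
  have hrel : (1 - t) * (r * sin φ) = t * (s * sin ψ) := by
    rw [ht]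
    field_simp
    ring
  refine ⟨(1 - t) * (r * cos φ) + t * (s * cos ψ), ?_, ?_⟩
  · have h4 : (r * sin φ + s * sin ψ) * ((1 - t) * (r * cos φ) + t * (s * cos ψ)) =
        r * s * sin (φ + ψ) := by
      rw [sin_add, ht]
      field_simp
      ring
    have h5 : 0 < r * s * sin (φ + ψ) := by positivity
    rw [← h4] at h5
    by_contra hcon
    push Not at hcon
    have := mul_nonpos_of_nonneg_of_nonpos hD.le hcon.le
    linarith
  · have q1 := sin_sq_add_cos_sq φ
    have q2 := sin_sq_add_cos_sq ψ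
    have e0 : lc r s (φ + ψ) = (r * cos φ - s * cos ψ) ^ 2 + (r * sin φ + s * sin ψ) ^ 2 := by
      rw [lc, cos_add]
      linear_combination (-r ^ 2) * q1 - s ^ 2 * q2
    have e1 : lc r ((1 - t) * (r * cos φ) + t * (s * cos ψ)) φ = t ^ 2 * lc r s (φ + ψ) := by
      have h4 : r * sin φ = t * (r * sin φ + s * sin ψ) := by linear_combination hrel
      have h5 : lc r ((1 - t) * (r * cos φ) + t * (s * cos ψ)) φ =
          (r * cos φ - ((1 - t) * (r * cos φ) + t * (s * cos ψ))) ^ 2 + (r * sin φ) ^ 2 := by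
        rw [lc]
        linear_combination (-r ^ 2) * q1
      rw [h5, e0]
      conv_lhs => rw [h4]
      ring
    have e2 : lc ((1 - t) * (r * cos φ) + t * (s * cos ψ)) s ψ =
        (1 - t) ^ 2 * lc r s (φ + ψ) := by
      have h4 : s * sin ψ = (1 - t) * (r * sin φ + s * sin ψ) := by linear_combination -hrel
      have h5 : lc ((1 - t) * (r * cos φ) + t * (s * cos ψ)) s ψ =
          (((1 - t) * (r * cos φ) + t * (s * cos ψ)) - s * cos ψ) ^ 2 + (s * sin ψ) ^ 2 := by
        rw [lc]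
        linear_combination (-s ^ 2) * q2
      rw [h5, e0]
      conv_lhs => rw [h4]
      ring
    rw [e1, e2, sqrt_mul (sq_nonneg _), sqrt_mul (sq_nonneg _), sqrt_sq ht0,
      sqrt_sq (by linarith)]
    ring

theorem Ch.cone {x y : Pt Γ} {t : ℝ} (h : Ch x y t) (ht : t < π) {r s : ℝ} (hr : 0 ≤ r)
    (hs : 0 ≤ s) : CCh (pc r hr x) (pc s hs y) (√(lc r s t)) := by
  induction h generalizing r with
  | nil x => exact CCh.single ((Loc.refl x).cone hr hs)
  | @cons x y z s' t' h1 h2 ih =>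
    have n1 := h1.nonneg
    have n2 := h2.nonneg
    obtain ⟨ρ, hρ, h3⟩ := crossing hr hs n1 n2 ht
    rw [← h3]
    exact CCh.cons (h1.cone hr hρ) (ih (by linarith) hρ)

section

variable [Nonempty A]

/-- The norm of a point of the cone. -/
noncomputable def nrm (f : CPt Γ) : ℝ := (pc_surj f).choose

theorem nrm_nonneg (f : CPt Γ) : 0 ≤ nrm f := (pc_surj f).choose_spec.choose

/-- The direction of a point of the cone. -/
noncomputable def dir (f : CPt Γ) : Pt Γ := (pc_surj f).choose_spec.choose_spec.choose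

theorem eq_pc (f : CPt Γ) : f = pc (nrm f) (nrm_nonneg f) (dir f) :=
  (pc_surj f).choose_spec.choose_spec.choose_spec

theorem f_eq (f : CPt Γ) (c : A) : f.f c = nrm f * sd (dir f) c :=
  congrArg (fun z : CPt Γ => z.f c) (eq_pc f)

theorem nrm_pc {r : ℝ} (hr : 0 ≤ r) (x : Pt Γ) : nrm (pc r hr x) = r := by
  rcases eq_or_lt_of_le hr with rfl | hr'
  · rcases eq_or_lt_of_le (nrm_nonneg (pc 0 hr x)) with h | h
    · exact h.symm
    · have h1 := eq_pc (pc 0 hr x)
      exact (pc_inj (hr := h) h1.symm).1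
  · exact (pc_inj (hr := hr') (eq_pc (pc r hr x))).1.symm

theorem dir_pc {r : ℝ} (hr : 0 < r) (x : Pt Γ) : dir (pc r hr.le x) = x :=
  (pc_inj (hr := hr) (eq_pc (pc r hr.le x))).2.symm

theorem coneOver (Γ : WG A) : ConeOver (fun x y : Pt Γ => Th x y) nrm dir where
  ang := angSp Γ
  nonneg := nrm_nonneg
  inj f g h1 h2 := by
    refine CPt.ext fun c => ?_
    rw [f_eq f, f_eq g, h1]
    rcases h2 with h2 | h2
    · rw [← h1, h2, zero_mul, zero_mul]
    · rw [h2]
  surj x r hr := ⟨pc r hr.le x, nrm_pc hr.le x, dir_pc hr x⟩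
  zero := by
    obtain ⟨a⟩ := ‹Nonempty A›
    exact ⟨pc 0 le_rfl (vtx a), nrm_pc le_rfl _⟩

end

open Classical in
/-- The distance in the cone. -/
noncomputable def cdist (f g : CPt Γ) : ℝ :=
  if h : Nonempty A then cd (fun x y : Pt Γ => Th x y) (@nrm A Γ h) (@dir A Γ h) f g else 0

theorem cdist_eq [hA : Nonempty A] (f g : CPt Γ) :
    cdist f g = cd (fun x y : Pt Γ => Th x y) nrm dir f g := dif_pos hA

noncomputable instance instMS : MetricSpace (CPt Γ) where
  dist := cdist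
  dist_self f := by
    by_cases h : Nonempty A
    · rw [cdist_eq]
      exact cd_self (coneOver Γ) f
    · exact dif_neg h
  dist_comm f g := by
    by_cases h : Nonempty A
    · rw [cdist_eq, cdist_eq]
      exact cd_symm (coneOver Γ) f g
    · rw [cdist, cdist, dif_neg h, dif_neg h]
  dist_triangle f g k := by
    by_cases h : Nonempty A
    · rw [cdist_eq, cdist_eq, cdist_eq]
      exact cd_tri (coneOver Γ) f g k
    · rw [cdist, cdist, cdist, dif_neg h, dif_neg h, dif_neg h, add_zero]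
  eq_of_dist_eq_zero {f g} h0 := by
    by_cases h : Nonempty A
    · rw [cdist_eq] at h0
      exact cd_eq (coneOver Γ) f g h0
    · exact CPt.ext fun a => absurd ⟨a⟩ h

theorem dist_def (f g : CPt Γ) : dist f g = cdist f g := rfl

/-- **Stewart's inequality in the cone.** -/
theorem cone_stewart (f g : CPt Γ) (t : ℝ) (h0 : 0 ≤ t) (h1 : t ≤ 1) :
    ∃ z, dist f z = t * dist f g ∧ dist z g = (1 - t) * dist f g ∧
      ∀ p, dist p z ^ 2 ≤ (1 - t) * dist p f ^ 2 + t * dist p g ^ 2 -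
        t * (1 - t) * dist f g ^ 2 := by
  simp only [dist_def]
  by_cases h : Nonempty A
  · simp only [cdist_eq]
    exact cd_stewart (coneOver Γ) f g t h0 h1
  · refine ⟨f, ?_, ?_, fun p => ?_⟩ <;> simp only [cdist, dif_neg h] <;> norm_num

/-- The distance of two points of the cone in polar coordinates. -/
theorem dist_pc {x y : Pt Γ} {r s : ℝ} (hr : 0 ≤ r) (hs : 0 ≤ s) :
    dist (pc r hr x) (pc s hs y) = √(lc r s (Th x y)) := by
  have hA : Nonempty A := by
    rcases x.cases with ⟨a, -⟩ | ⟨a, -⟩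
    · exact ⟨a⟩
    · exact ⟨a⟩
  rw [dist_def, cdist_eq, cd, nrm_pc, nrm_pc]
  rcases eq_or_lt_of_le hr with rfl | hr'
  · simp [lc]
  rcases eq_or_lt_of_le hs with rfl | hs'
  · simp [lc]
  rw [dir_pc hr', dir_pc hs']

/-- Points are in polar form. -/
theorem exists_pc (f : CPt Γ) (hA : Nonempty A) : ∃ (r : ℝ) (hr : 0 ≤ r) (x : Pt Γ), f = pc r hr x :=
  pc_surj f

/-- A point of a ray. -/
theorem ray_eq {s : ℝ} {hs : 0 ≤ s} {y : Pt Γ} {a : A} (h : On (pc s hs y).f a a) :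
    (pc s hs y).f a = s ∧ (0 < s → y = vtx a) := by
  rcases eq_or_lt_of_le hs with rfl | hs'
  · exact ⟨by rw [pc_f, zero_mul], fun h' => absurd h' (lt_irrefl _)⟩
  · have h1 := on_of_pc hs' h
    have h2 : y = vtx a := by
      rcases y.cases with ⟨c, rfl⟩ | ⟨c, d, hcd, hon, hc, hd⟩
      · rcases vtx_on.1 h1 with rfl | rfl <;> rfl
      · exfalso
        rcases Pt.edge_unique h1 hc.ne' hd.ne' hcd.ne with ⟨rfl, h3⟩ | ⟨rfl, h3⟩
        · exact hcd.ne h3.symm
        · exact hcd.ne h3.symm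
    exact ⟨by rw [h2, pc_f, sd_vtx, mul_one], fun _ => h2⟩

/-- The distance of two points of a common closed sector. -/
theorem CLoc.dist_eq {f g : CPt Γ} {s : ℝ} (h : CLoc f g s) : dist f g = s := by
  have hA : Nonempty A := by
    rcases h with ⟨a, -⟩ | ⟨a, -⟩
    · exact ⟨a⟩
    · exact ⟨a⟩
  obtain ⟨r, hr, x, rfl⟩ := pc_surj f
  obtain ⟨s', hs, y, rfl⟩ := pc_surj g
  rw [dist_pc]
  rcases h with ⟨a, h1, h2, rfl⟩ | ⟨a, b, hab, h1, h2, rfl⟩
  · obtain ⟨e1, e2⟩ := ray_eq h1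
    obtain ⟨e3, e4⟩ := ray_eq h2
    rw [e1, e3]
    rcases eq_or_lt_of_le hr with rfl | hr'
    · rw [zero_sub, abs_neg, abs_of_nonneg hs, ← sqrt_sq hs]
      congr 1
      rw [sqrt_sq hs]
      simp [lc]
    · rcases eq_or_lt_of_le hs with rfl | hs'
      · rw [sub_zero, abs_of_nonneg hr, ← sqrt_sq hr]
        congr 1
        rw [sqrt_sq hr]
        simp [lc]
      · rw [e2 hr', e4 hs', Th.self, sqrt_lc_zero]
  · rcases eq_or_lt_of_le hr with rfl | hr'
    · have h3 : ∀ c, (pc 0 hr x).f c = 0 := fun c => by rw [pc_f, zero_mul]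
      rw [h3, h3, zero_sub, zero_sub, qf_neg, pc_qf hab h2]
      congr 1
      simp [lc]
    · rcases eq_or_lt_of_le hs with rfl | hs'
      · have h3 : ∀ c, (pc 0 hs y).f c = 0 := fun c => by rw [pc_f, zero_mul]
        rw [h3, h3, sub_zero, sub_zero, pc_qf hab h1]
        congr 1
        simp [lc]
      · have h3 := on_of_pc hr' h1
        have h4 := on_of_pc hs' h2
        rw [qf_edge hab h3 h4, th_edge hab h3 h4]

/-- The distance is the length of a chain. -/
theorem exists_cch (f g : CPt Γ) : CCh f g (dist f g) := by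
  by_cases hA : Nonempty A
  · obtain ⟨r, hr, x, rfl⟩ := pc_surj f
    obtain ⟨s, hs, y, rfl⟩ := pc_surj g
    rw [dist_pc]
    rcases lt_or_eq_of_le (Th.le_pi x y) with h | h
    · exact (exists_ch h).cone h hr hs
    · have h1 : CCh (pc r hr x) (pc 0 le_rfl x) r := by
        have := CCh.single ((Loc.refl x).cone hr (le_refl (0 : ℝ)))
        rwa [sqrt_lc_zero, sub_zero, abs_of_nonneg hr] at this
      have h2 : CCh (pc 0 le_rfl y) (pc s hs y) s := by
        have := CCh.single ((Loc.refl y).cone (le_refl (0 : ℝ)) hs)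
        rwa [sqrt_lc_zero, zero_sub, abs_neg, abs_of_nonneg hs] at this
      have h3 : pc 0 le_rfl x = (pc 0 le_rfl y : CPt Γ) := CPt.ext fun c => by
        rw [pc_f, pc_f, zero_mul, zero_mul]
      rw [h3] at h1
      have h4 := h1.append h2
      have h5 : √(lc r s (Th x y)) = r + s := by
        rw [h, lc, cos_pi, ← sqrt_sq (add_nonneg hr hs)]
        congr 1
        ring
      rwa [h5]
  · have : f = g := CPt.ext fun a => absurd ⟨a⟩ hA
    rw [this, dist_self]
    exact CCh.nil g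

theorem CCh.dist_le {x y : CPt Γ} {t : ℝ} (h : CCh x y t) : dist x y ≤ t := by
  induction h with
  | nil x => rw [dist_self]
  | @cons x y z s t h1 _ ih =>
    have := dist_triangle x y z
    rw [h1.dist_eq] at this
    linarith

/-- A function which is Lipschitz on each closed sector is Lipschitz. -/
theorem lip_of_loc {F : CPt Γ → ℝ} {L : ℝ} (h : ∀ x y s, CLoc x y s → |F x - F y| ≤ L * s)
    (x y : CPt Γ) : |F x - F y| ≤ L * dist x y := by
  have key : ∀ {x y : CPt Γ} {t : ℝ}, CCh x y t → |F x - F y| ≤ L * t := by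
    intro x y t hc
    induction hc with
    | nil x => simp
    | @cons x y z s t h1 _ ih =>
      have h2 := h x y s h1
      have h3 := abs_sub_le (F x) (F y) (F z)
      rw [mul_add]
      linarith
  exact key (exists_cch x y)

theorem abs_le_sqrt_qf {w σ : ℝ} (hσ : 0 < σ) (h : σ ≤ sin w) (u v : ℝ) :
    |u| ≤ σ⁻¹ * √(qf w u v) := by
  have h1 : (σ * |u|) ^ 2 ≤ qf w u v := by
    rw [qf_comm, qf_eq]
    have h2 : (σ * |u|) ^ 2 ≤ (u * sin w) ^ 2 := by
      rw [mul_pow, mul_pow, sq_abs, mul_comm (u ^ 2)]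
      exact mul_le_mul_of_nonneg_right (pow_le_pow_left₀ hσ.le h 2) (sq_nonneg u)
    nlinarith [sq_nonneg (v + u * cos w)]
  have h3 : σ * |u| ≤ √(qf w u v) := le_sqrt_of_sq_le h1
  rw [inv_mul_eq_div, le_div_iff₀ hσ]
  linarith

theorem sqrt_qf_le (w u v : ℝ) : √(qf w u v) ≤ |u| + |v| := by
  rw [sqrt_le_left (by positivity)]
  unfold qf
  have h1 : u * v * cos w ≤ |u| * |v| := by
    have h2 := abs_le.1 (abs_mul (u * v) (cos w) ▸ mul_le_of_le_one_right (abs_nonneg (u * v))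
      (abs_cos_le_one w) : |u * v * cos w| ≤ |u * v|)
    rw [abs_mul] at h2
    exact h2.2
  have h3 := sq_abs u
  have h4 := sq_abs v
  nlinarith

/-- The coordinates are Lipschitz functions. -/
theorem coord_lip {σ : ℝ} (hσ : 0 < σ) (hσ1 : σ ≤ 1)
    (h : ∀ a b, Γ.G.Adj a b → σ ≤ sin (Γ.w a b)) (c : A) (x y : CPt Γ) :
    |x.f c - y.f c| ≤ σ⁻¹ * dist x y := by
  have hσ' : 1 ≤ σ⁻¹ := (one_le_inv₀ hσ).2 hσ1
  refine lip_of_loc (F := fun z => z.f c) (fun x y s hs => ?_) x y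
  have hs0 := hs.nonneg
  rcases hs with ⟨a, h1, h2, rfl⟩ | ⟨a, b, hab, h1, h2, rfl⟩
  · by_cases hc : c = a
    · subst hc
      nlinarith [abs_nonneg (x.f c - y.f c)]
    · simp only [h1 c hc hc, h2 c hc hc, sub_self, abs_zero]
      positivity
  · by_cases hc : c = a
    · subst hc
      exact abs_le_sqrt_qf hσ (h _ _ hab) _ _
    · by_cases hc' : c = b
      · subst hc'
        rw [qf_comm]
        exact abs_le_sqrt_qf hσ (h _ _ hab) _ _
      · simp only [h1 c hc hc', h2 c hc hc', sub_self, abs_zero]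
        positivity

end Pool.Agent.Helper26.GT
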