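import Pool.Agent.Helper26.GT.RzCat
import Pool.Agent.Helper37.CH.Glob

/-!
# The free edge theorem
-/

set_option autoImplicit false

namespace Pool.Agent.Helper26.GT

open Real Pool.Agent.Helper63.GT Pool.Agent.Helper37.CH Pool.Agent.Helper50.GT
  Pool.Agent.Helper3.FJ Pool.Agent.Helper3.FJ.Cpx

variable {V : Type} {D : PE V}

open Classical in
/-- A vertex as a point of the realization. -/
noncomputable def vx (D : PE V) (v : V) : Rz D where
  f c := if c = v then 1 else 0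
  nonneg c := by split_ifs <;> norm_num
  sum := by
    rw [finsum_eq_single _ v fun c hc => if_neg hc, if_pos rfl]
  ex := ⟨v, v, v, Or.inl ⟨rfl, rfl⟩, fun c hc _ _ => if_neg hc⟩

theorem vx_self (v : V) : (vx D v).f v = 1 := if_pos rfl

theorem vx_ne {v c : V} (h : c ≠ v) : (vx D v).f c = 0 := if_neg h

theorem vx_inj {u v : V} (h : vx D u = vx D v) : u = v := by
  by_contra hne
  have h1 := congrArg (fun p : Rz D => p.f u) h
  simp only [vx_self, vx_ne hne] at h1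
  norm_num at h1

open Classical in
/-- The points of an edge. -/
noncomputable def ep {v a : V} (h : D.U.adj v a) (t : ℝ) (h0 : 0 ≤ t) (h1 : t ≤ 1) : Rz D where
  f c := if c = v then 1 - t else if c = a then t else 0
  nonneg c := by split_ifs <;> linarith
  sum := by
    have hne := D.ne h
    have hon : On3 (fun c => if c = v then 1 - t else if c = a then t else 0) v a a :=
      fun c h2 h3 _ => by simp only [if_neg h2, if_neg h3]
    rw [hon.sum2 hne]
    simp only [if_true, if_neg hne.symm]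
    ring
  ex := ⟨v, a, a, Or.inr (Or.inl ⟨h, rfl⟩), fun c h2 h3 _ => by simp only [if_neg h2, if_neg h3]⟩

section

variable {v a : V} (h : D.U.adj v a) {t : ℝ} (h0 : 0 ≤ t) (h1 : t ≤ 1)

theorem ep_v : (ep h t h0 h1).f v = 1 - t := if_pos rfl

theorem ep_a : (ep h t h0 h1).f a = t := by
  classical
  change (if a = v then 1 - t else if a = a then t else 0) = t
  rw [if_neg (D.ne h).symm, if_pos rfl]

theorem ep_c {c : V} (hc : c ≠ v) (hc' : c ≠ a) : (ep h t h0 h1).f c = 0 := by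
  classical
  change (if c = v then 1 - t else if c = a then t else 0) = 0
  rw [if_neg hc, if_neg hc']

theorem ep_clSt : ClSt v (ep h t h0 h1) :=
  ⟨a, a, Or.inr (Or.inl ⟨h, rfl⟩), fun _ h2 h3 _ => ep_c h h0 h1 h2 h3⟩

theorem ep_zero : ep h 0 le_rfl zero_le_one = vx D v := Rz.ext fun c => by
  by_cases hc : c = v
  · rw [hc, ep_v, vx_self, sub_zero]
  · rw [vx_ne hc]
    by_cases hc' : c = a
    · rw [hc', ep_a]
    · rw [ep_c h _ _ hc hc']

theorem ep_swap : ep h t h0 h1 = ep (D.U.adj_symm _ _ h) (1 - t) (by linarith) (by linarith) :=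
  Rz.ext fun c => by
    by_cases hc : c = v
    · rw [hc, ep_v, ep_a]
    · by_cases hc' : c = a
      · rw [hc', ep_a, ep_v]
        ring
      · rw [ep_c h _ _ hc hc', ep_c _ _ _ hc' hc]

theorem ep_one : ep h 1 zero_le_one le_rfl = vx D a := by
  rw [ep_swap]
  have := ep_zero (D.U.adj_symm _ _ h)
  rw [← this]
  congr 1
  ring

/-- The chart at `v` on an edge. -/
theorem cht_ep : cht v (ep h t h0 h1) =
    pc (t * D.ℓ v a) (mul_nonneg h0 (D.met.pos _ _ h).le) (vtx (⟨a, h⟩ : LkV D.U v)) := by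
  refine CPt.ext fun c => ?_
  rw [cht_f (ep_clSt h h0 h1), pc_f]
  by_cases hc : c = ⟨a, h⟩
  · rw [hc, sd_vtx, ep_a, mul_one]
  · rw [sd_zero (vtx_ne hc), mul_zero, ep_c h h0 h1 (D.ne c.2).symm (fun he => hc (Subtype.ext he)),
      zero_mul]

end

theorem dist_ep {v a : V} (h : D.U.adj v a) {s t : ℝ} (hs0 : 0 ≤ s) (hs1 : s ≤ 1) (ht0 : 0 ≤ t)
    (ht1 : t ≤ 1) (hlt : D.ℓ v a * |s - t| < D.ρ) :
    dist (ep h s hs0 hs1) (ep h t ht0 ht1) = D.ℓ v a * |s - t| := by
  have key : ∀ {v a : V} (h : D.U.adj v a) {s t : ℝ} (hs0 : 0 ≤ s) (hs1 : s ≤ 1) (ht0 : 0 ≤ t)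
      (ht1 : t ≤ 1), D.ℓ v a * |s - t| < D.ρ → s ≤ 1 / 2 →
      dist (ep h s hs0 hs1) (ep h t ht0 ht1) = D.ℓ v a * |s - t| := by
    intro v a h s t hs0 hs1 ht0 ht1 hlt hs
    have h2 : dist (cht v (ep h s hs0 hs1)) (cht v (ep h t ht0 ht1)) = D.ℓ v a * |s - t| := by
      rw [cht_ep, cht_ep, dist_pc, Th.self, sqrt_lc_zero, ← sub_mul, abs_mul,
        abs_of_pos (D.met.pos _ _ h), mul_comm]
    have h3 := chart_eq' (v := v) (p := ep h s hs0 hs1) (q := ep h t ht0 ht1)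
      (by rw [ep_v]; linarith) (ep_clSt h ht0 ht1) (by rw [h2]; exact hlt)
    rw [h2] at h3
    exact h3
  by_cases hs : s ≤ 1 / 2
  · exact key h hs0 hs1 ht0 ht1 hlt hs
  · push Not at hs
    have e1 : |1 - s - (1 - t)| = |s - t| := by
      rw [← abs_neg]
      congr 1
      ring
    rw [ep_swap h hs0 hs1, ep_swap h ht0 ht1, D.met.symm v a, ← e1]
    refine key _ _ _ _ _ ?_ (by linarith)
    rw [e1, D.met.symm a v]
    exact hlt

/-- The edges are local geodesics. -/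
theorem exists_edge {v a : V} (h : D.U.adj v a) : ∃ β : ℝ → Rz D, LGeo β (D.ℓ v a) ∧
    β 0 = vx D v ∧ β 1 = vx D a ∧ ∀ t (h0 : 0 ≤ t) (h1 : t ≤ 1), β t = ep h t h0 h1 := by
  have hl := D.met.pos _ _ h
  have hc : ∀ t : ℝ, 0 ≤ max 0 (min 1 t) ∧ max 0 (min 1 t) ≤ 1 := fun t =>
    ⟨le_max_left _ _, max_le zero_le_one (min_le_left _ _)⟩
  have hin : ∀ t : ℝ, 0 ≤ t → t ≤ 1 → max 0 (min 1 t) = t := fun t h0 h1 => by
    rw [min_eq_right h1, max_eq_right h0]
  have hβ : ∀ t (h0 : 0 ≤ t) (h1 : t ≤ 1),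
      ep h (max 0 (min 1 t)) (hc t).1 (hc t).2 = ep h t h0 h1 := by
    intro t h0 h1
    simp only [hin t h0 h1]
  refine ⟨fun t => ep h (max 0 (min 1 t)) (hc t).1 (hc t).2, ⟨hl.le, fun t => ?_,
    D.ρ / (2 * D.ℓ v a), by have := D.ρ_pos; positivity, fun s t hs hst ht hk => ?_⟩, ?_, ?_, fun t h0 h1 => hβ t h0 h1⟩
  · simp only [hin _ (hc t).1 (hc t).2]
  · rw [hβ s hs (hst.trans ht), hβ t (hs.trans hst) ht]
    have h2 : D.ℓ v a * |s - t| < D.ρ := by
      rw [abs_sub_comm, abs_of_nonneg (sub_nonneg.2 hst)]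
      rw [le_div_iff₀ (by positivity)] at hk
      have := D.ρ_pos
      nlinarith
    rw [dist_ep h _ _ _ _ h2, abs_sub_comm, abs_of_nonneg (sub_nonneg.2 hst)]
  · exact (hβ 0 le_rfl zero_le_one).trans (ep_zero h)
  · exact (hβ 1 zero_le_one le_rfl).trans (ep_one h)

/-- **The first variation.** For vertices `o`, `y` there is a direction `ξ` at `y` such that the
neighbours at an angle of at least `π / 2` have larger distance from `o` than `y`. -/
theorem exists_xi {ε δ : ℝ} (H : Hyp (Rz D) ε δ) (o y : V) (hne : Nonempty (LkV D.U y)) :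
    ∃ ξ : Pt (lkWG D.met D.link y), ∀ a : LkV D.U y, π / 2 ≤ Th ξ (vtx a) →
      DD (vx D o) (vx D y) < DD (vx D o) (vx D a.1) := by
  obtain ⟨γ, hγ, hγ0, hγ1⟩ := H.exists (vx D y) (vx D o)
  obtain ⟨L, hL⟩ : ∃ L, L = DD (vx D y) (vx D o) := ⟨_, rfl⟩
  rw [← hL] at hγ
  have hL0 := hγ.nonneg
  have hε := H.cat.pos
  have hρ := D.ρ_pos
  obtain ⟨κ, hκ, hloc⟩ := hγ.loc
  obtain ⟨r, hr⟩ : ∃ r, r = min D.ρ ε / 2 := ⟨_, rfl⟩
  have hr0 : 0 < r := by
    rw [hr]
    have := lt_min hρ hε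
    linarith
  have hrρ : 2 * r ≤ D.ρ := by
    rw [hr]
    have := min_le_left D.ρ ε
    linarith
  have hrε : 2 * r ≤ ε := by
    rw [hr]
    have := min_le_right D.ρ ε
    linarith
  -- a point near `y` on the geodesic
  obtain ⟨u, hu⟩ : ∃ u, u = min (min κ 1) (r / (2 * (L + 1))) := ⟨_, rfl⟩
  have hu0 : 0 < u := by
    rw [hu]
    exact lt_min (lt_min hκ one_pos) (by positivity)
  have hu1 : u ≤ 1 := by
    rw [hu]
    exact (min_le_left _ _).trans (min_le_right _ _)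
  have huκ : u ≤ κ := by
    rw [hu]
    exact (min_le_left _ _).trans (min_le_left _ _)
  have huL : L * u < r := by
    have h1 : u ≤ r / (2 * (L + 1)) := by
      rw [hu]
      exact min_le_right _ _
    rw [le_div_iff₀ (by positivity)] at h1
    nlinarith
  have hd := hloc 0 u le_rfl hu0.le hu1 (by rw [sub_zero]; exact huκ)
  rw [hγ0, sub_zero] at hd
  have hvy : 1 / 6 ≤ (vx D y).f y := by
    rw [vx_self]
    norm_num
  have hd' : dist (cht y (vx D y)) (cht y (γ u)) = L * u := by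
    rw [← hd]
    exact chart_eq hvy (by
      have : dist (vx D y) (γ u) < D.ρ := by
        rw [hd]
        linarith
      exact this)
  obtain ⟨s, hs, ξ, hξ⟩ := exists_pc (cht y (γ u)) hne
  have hapex : cht y (vx D y) = pc 0 le_rfl ξ := by
    refine CPt.ext fun c => ?_
    rw [pc_f, zero_mul, cht_f (clSt_of_ne (by rw [vx_self]; norm_num)), vx_ne (D.ne c.2).symm,
      zero_mul]
  have hsL : s = L * u := by
    rw [hξ, hapex, dist_pc, Th.self, sqrt_lc_zero, zero_sub, abs_neg, abs_of_nonneg hs] at hd'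
    exact hd'
  subst hsL
  refine ⟨ξ, fun a ha => ?_⟩
  obtain ⟨β, hβ, hβ0, hβ1, hβt⟩ := exists_edge a.2
  obtain ⟨M, hM⟩ : ∃ M, M = D.ℓ y a.1 := ⟨_, rfl⟩
  have hMp : 0 < M := by
    rw [hM]
    exact D.met.pos _ _ a.2
  obtain ⟨τ, hτ⟩ : ∃ τ, τ = min 1 (r / (2 * M)) := ⟨_, rfl⟩
  have hτ0 : 0 < τ := by
    rw [hτ]
    exact lt_min one_pos (by positivity)
  have hτ1 : τ ≤ 1 := by
    rw [hτ]
    exact min_le_left _ _
  have hτM : τ * M < r := by
    have h1 : τ ≤ r / (2 * M) := by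
      rw [hτ]
      exact min_le_right _ _
    rw [le_div_iff₀ (by positivity)] at h1
    linarith
  have hβτ := hβt τ hτ0.le hτ1
  have hdβ : dist (vx D y) (β τ) = M * τ := by
    have h1 := dist_ep a.2 le_rfl zero_le_one hτ0.le hτ1 (by
      rw [zero_sub, abs_neg, abs_of_pos hτ0, ← hM]
      linarith)
    rw [ep_zero, zero_sub, abs_neg, abs_of_pos hτ0, ← hM] at h1
    rw [hβτ, h1]
  have hdγβ : dist (γ u) (β τ) < 2 * r := by
    have h1 := dist_triangle (γ u) (vx D y) (β τ)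
    rw [dist_comm (γ u) (vx D y), hd, hdβ] at h1
    linarith
  have hgood : 1 / 6 ≤ (γ u).f y := by
    have h1 := Pool.Agent.Helper63.GT.coord_lip hvy (q := γ u) (by
      have : dist (vx D y) (γ u) < D.ρ := by
        rw [hd]
        linarith
      exact this)
    have h2 : D.K * dst (vx D y) (γ u) ≤ D.K * D.ρ := by
      refine mul_le_mul_of_nonneg_left ?_ D.K_pos.le
      have : dist (vx D y) (γ u) ≤ D.ρ := by
        rw [hd]
        linarith
      exact this
    rw [D.Kρ] at h2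
    rw [vx_self] at h1
    have := (abs_le.1 h1).2
    linarith
  have hch : dist (γ u) (β τ) = √(lc (L * u) (τ * M) (Th ξ (vtx a))) := by
    have h1 : dist (cht y (γ u)) (cht y (β τ)) = dist (γ u) (β τ) :=
      chart_eq hgood (by
        have : dist (γ u) (β τ) < D.ρ := by linarith
        exact this)
    rw [← h1, hξ, hβτ, cht_ep, dist_pc]
    subst hM
    rfl
  have hcos : cos (Th ξ (vtx a)) ≤ 0 := by
    refine cos_nonpos_of_pi_div_two_le_of_le ha ?_
    have := Th.le_pi ξ (vtx a)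
    linarith [pi_pos]
  have hDD : DD (γ u) (β τ) = dist (γ u) (β τ) := H.of_lt (by linarith)
  have hob := H.obtuse hγ hβ (hγ0.trans hβ0.symm) hu0 hu1 hτ0 hτ1 (by
    rw [hDD, hch, sq_sqrt (lc_nonneg _ _ _), ← hM]
    unfold lc
    have h2 : 0 ≤ (L * u) * (τ * M) := by positivity
    nlinarith)
  rw [hγ1, hβ1, ← hM] at hob
  have hn := H.nonneg (vx D o) (vx D a.1)
  rw [H.comm (vx D o) (vx D y), ← hL]
  nlinarith

/-- **The free edge theorem**, from the theorem of Cartan and Hadamard. -/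
theorem geoU_of_hyp
    (HY : ∀ {W : Type} (D : PE W), D.U.SimplyConn → ∃ ε δ : ℝ, Hyp (Rz D) ε δ) :
    Pool.Agent.Helper13.GT.GeoU := by
  intro W U ℓ F hM hL hS hU hC K hfin hne h1 h2 h3
  obtain ⟨D, hD⟩ : ∃ D : PE W, D = ⟨U, ℓ, hM, hL, hS⟩ := ⟨_, rfl⟩
  obtain ⟨ε, δ, H⟩ := HY D (by rw [hD]; exact hU)
  subst hD
  obtain ⟨o⟩ := hU.1
  -- the vertex with the largest distance
  have hSf : (Prod.fst '' K).Finite := hfin.image _
  obtain ⟨y, ⟨⟨y', a', b'⟩, hyK, rfl⟩, hmax⟩ := Set.exists_max_image (Prod.fst '' K)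
    (fun v => DD (vx (⟨U, ℓ, hM, hL, hS⟩ : PE W) o) (vx _ v)) hSf (hne.image _)
  simp only at hmax
  have hadj : U.adj y' a' := U.tri_adj _ _ _ (h1 _ _ _ hyK)
  obtain ⟨ξ, hξ⟩ := exists_xi H o y' ⟨⟨a', hadj⟩⟩
  have hleft : ∀ a b, (y', a, b) ∈ K → (y', b, a) ∈ K := fun a b h =>
    h3 _ _ _ (h2 _ _ _ (h2 _ _ _ h))
  obtain ⟨a, b, h4, h5, h6⟩ := good_leaf_pt ξ (fun a b => (y', a.1, b.1) ∈ K)
    (fun a b h => h1 _ _ _ h) (fun a b h => hleft _ _ h)
    (by
      refine Set.Finite.of_finite_image (f := fun p : LkV U y' × LkV U y' => (y', p.1.1, p.2.1))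
        (hfin.subset ?_) ?_
      · rintro _ ⟨p, hp, rfl⟩
        exact hp
      · intro p _ q _ hpq
        simp only [Prod.mk.injEq, true_and] at hpq
        exact Prod.ext (Subtype.ext hpq.1) (Subtype.ext hpq.2))
    ⟨⟨a', hadj⟩, ⟨b', tri_adj2 (h1 _ _ _ hyK)⟩, hyK⟩
    (fun a b h => by
      by_contra hcon
      push Not at hcon
      have e1 := hξ a hcon
      have e2 := hmax a.1 ⟨(a.1, b.1, y'), h2 _ _ _ h, rfl⟩
      linarith)
    (fun a => F y' a.1) (fun a b p hp hw ha hb => lconv_walk hM hL hC y' a b p hp hw ha hb)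
  refine ⟨y', a.1, b.1, h4, fun d hd => ?_, h6⟩
  exact congrArg Subtype.val (h5 ⟨d, tri_adj2 (h1 _ _ _ hd)⟩ hd)

end Pool.Agent.Helper26.GT
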