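import Pool.Agent.Helper26.GT.Ang
import Pool.Agent.Helper50.GT.Leaf

/-!
# The free edge in a link, for an arbitrary direction
-/

set_option autoImplicit false

namespace Pool.Agent.Helper26.GT

open Pool.Agent.Helper50.GT Real SimpleGraph

section

variable {A : Type} {G : SimpleGraph A} {w : A → A → ℝ} {a b : A} {s : ℝ}

/-- A path from the new vertex. -/
theorem ins_from {d : A} (p : (ins G a b).Walk none (some d)) (hp : p.IsPath) :
    ∃ e, (e = a ∨ e = b) ∧ ∃ r : G.Walk e d, r.IsPath ∧ p.support = none :: r.support.map some ∧
      wt (insw w a b s) p = insw w a b s none (some e) + wt w r := by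
  cases p with
  | @cons _ v _ h p =>
    rw [Walk.cons_isPath_iff] at hp
    obtain ⟨e, rfl⟩ : ∃ e, v = some e := by
      cases v with
      | none => exact absurd h (by simp)
      | some e => exact ⟨e, rfl⟩
    obtain ⟨r, h1, h2, -⟩ := ins_down (s := s) (w := w) p hp.2 e d rfl rfl
    refine ⟨e, h, r, ?_, ?_, ?_⟩
    · have h3 := hp.1
      rw [Walk.isPath_def, h1] at h3
      rw [Walk.isPath_def]
      exact List.Nodup.of_map some h3
    · rw [Walk.support_cons, h1]
    · rw [wt_cons, h2]

/-- Convex sets of vertices after the insertion of a vertex. -/
theorem ins_conv (h : Circ G w (2 * π)) (hab : G.Adj a b) (h0 : 0 < s) (h1 : s < w a b)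
    {F : A → Prop}
    (hF : ∀ a b (p : G.Walk a b), p.IsPath → wt w p < π → F a → F b → ∀ c ∈ p.support, F c)
    (x y : Option A) (p : (ins G a b).Walk x y) (hp : p.IsPath) (hw : wt (insw w a b s) p < π)
    (hx : x.elim (F a ∧ F b) F) (hy : y.elim (F a ∧ F b) F) :
    ∀ z ∈ p.support, z.elim (F a ∧ F b) F := by
  classical
  have hC := ins_circ h hab h0 h1
  have hnn : ∀ x y, (ins G a b).Adj x y → 0 ≤ insw w a b s x y := fun x y hxy => (hC.pos _ _ hxy).le
  -- paths from the new vertex
  have from' : ∀ (d : A) (p : (ins G a b).Walk none (some d)), p.IsPath →
      wt (insw w a b s) p < π → F a ∧ F b → F d → ∀ z ∈ p.support, z.elim (F a ∧ F b) F := by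
    intro d p hp hw hab' hd z hz
    obtain ⟨e, he, r, h2, h3, h4⟩ := ins_from (s := s) (w := w) p hp
    rw [h3, List.mem_cons, List.mem_map] at hz
    rcases hz with rfl | ⟨z', hz', rfl⟩
    · exact hab'
    · refine hF e d r h2 ?_ ?_ hd z' hz'
      · have := hnn none (some e) he
        linarith
      · rcases he with rfl | rfl
        · exact hab'.1
        · exact hab'.2
  rcases x with _ | c
  · rcases y with _ | d
    · intro z hz
      cases p with
      | nil =>
        rw [Walk.support_nil, List.mem_singleton] at hz
        rw [hz]
        exact hx
      | cons h2 p =>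
        rw [Walk.cons_isPath_iff] at hp
        exact absurd p.end_mem_support hp.2
    · exact from' d p hp hw hx hy
  · rcases y with _ | d
    · intro z hz
      refine from' c p.reverse hp.reverse ?_ hy hx z ?_
      · rw [wt_reverse hC.symm]
        exact hw
      · rw [Walk.support_reverse, List.mem_reverse]
        exact hz
    · by_cases hn : none ∈ p.support
      · -- the path passes through the new vertex
        have key : F a ∧ F b := by
          have hspec := p.take_spec hn
          have hp1 := hp.takeUntil hn
          have hp2 := hp.dropUntil hn
          generalize p.takeUntil none hn = p1 at hspec hp1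
          generalize p.dropUntil none hn = p2 at hspec hp2
          have hpp : (p1.append p2).IsPath := by rw [hspec]; exact hp
          have hwt : wt (insw w a b s) p1 + wt (insw w a b s) p2 < π := by
            rw [← wt_append, hspec]
            exact hw
          obtain ⟨e1, he1, r1, hr1, hs1, hw1⟩ := ins_from (s := s) (w := w) p1.reverse hp1.reverse
          obtain ⟨e2, he2, r2, hr2, hs2, hw2⟩ := ins_from (s := s) (w := w) p2 hp2
          rw [wt_reverse hC.symm] at hw1
          rw [Walk.support_reverse] at hs1
          have hdis : ∀ z, z ∈ r1.support → z ∉ r2.support := by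
            intro z hz1 hz2
            have hnil : ¬ p2.Nil := by
              intro hnil
              cases hnil.eq
            have h2 := hpp.disjoint_support_of_append hnil
            have h3 : some z ∈ p1.support := by
              have : some z ∈ p1.support.reverse := by
                rw [hs1]
                exact List.mem_cons_of_mem _ (List.mem_map_of_mem hz1)
              rwa [List.mem_reverse] at this
            have h4 : some z ∈ p2.tail.support := by
              have h5 : p2.tail.support = p2.support.tail := by
                rw [Walk.support_tail_of_not_nil _ hnil]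
              rw [h5, hs2]
              exact List.mem_map_of_mem hz2
            exact h2 h3 h4
          have hne : e1 ≠ e2 := fun he => hdis e1 r1.start_mem_support
            (by rw [he]; exact r2.start_mem_support)
          have hadj : G.Adj e1 e2 := by
            rcases he1 with rfl | rfl <;> rcases he2 with rfl | rfl
            · exact absurd rfl hne
            · exact hab
            · exact hab.symm
            · exact absurd rfl hne
          have hwe : insw w a b s none (some e1) + insw w a b s none (some e2) = w e1 e2 := by
            have u1 : insw w a b s none (some a) = s := if_pos rfl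
            have u2 : insw w a b s none (some b) = w a b - s := if_neg hab.ne'
            rcases he1 with rfl | rfl <;> rcases he2 with rfl | rfl
            · exact absurd rfl hne
            · rw [u1, u2]
              ring
            · rw [u1, u2, h.symm e1 e2]
              ring
            · exact absurd rfl hne
          have hq1 : (Walk.cons hadj r2).IsPath := by
            rw [Walk.cons_isPath_iff]
            exact ⟨hr2, hdis e1 r1.start_mem_support⟩
          have hq : (r1.reverse.append (Walk.cons hadj r2)).IsPath := by
            refine h.append_isPath hr1.reverse hq1 (fun hl _ he => ?_) ?_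
            · have h2 : r1.reverse.penultimate ∈ r1.support := by
                have := r1.reverse.getVert_mem_support (r1.reverse.length - 1)
                rwa [Walk.support_reverse, List.mem_reverse] at this
              rw [he] at h2
              refine hdis _ h2 ?_
              simp
            · rw [wt_reverse h.symm, wt_cons]
              linarith [pi_pos]
          have hall := hF c d _ hq (by
            rw [wt_append, wt_reverse h.symm, wt_cons]
            linarith) hx hy
          have m1 : F e1 := hall e1 (by
            rw [Walk.mem_support_append_iff]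
            exact Or.inl (by simp))
          have m2 : F e2 := hall e2 (by
            rw [Walk.mem_support_append_iff]
            exact Or.inr (by simp))
          rcases he1 with rfl | rfl <;> rcases he2 with rfl | rfl
          · exact absurd rfl hne
          · exact ⟨m1, m2⟩
          · exact ⟨m2, m1⟩
          · exact absurd rfl hne
        -- the two halves
        intro z hz
        have hspec := p.take_spec hn
        have hwt : wt (insw w a b s) (p.takeUntil none hn) +
            wt (insw w a b s) (p.dropUntil none hn) < π := by
          rw [← wt_append, hspec]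
          exact hw
        have n1 := wt_nonneg hnn (p.takeUntil none hn)
        have n2 := wt_nonneg hnn (p.dropUntil none hn)
        rw [← hspec, Walk.mem_support_append_iff] at hz
        rcases hz with hz | hz
        · refine from' c (p.takeUntil none hn).reverse (hp.takeUntil hn).reverse ?_ key hx z ?_
          · rw [wt_reverse hC.symm]
            linarith
          · rw [Walk.support_reverse, List.mem_reverse]
            exact hz
        · exact from' d (p.dropUntil none hn) (hp.dropUntil hn) (by linarith) key hy z hz
      · obtain ⟨q, h2, h3, -⟩ := ins_down (s := s) (w := w) p hn c d rfl rfl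
        intro z hz
        rw [h2, List.mem_map] at hz
        obtain ⟨z', hz', rfl⟩ := hz
        refine hF c d q ?_ (by linarith) hx hy z' hz'
        rw [Walk.isPath_def, h2] at hp
        rw [Walk.isPath_def]
        exact List.Nodup.of_map some hp

end

/-- `K` is a finite set of edges all of whose vertices have angle less than `π / 2` with the
direction `ξ`, `F` is a convex set of vertices: there is a leaf `a` of `K`, with neighbour `b`, such
that `b` is in `F` if `a` is in `F`. -/
theorem good_leaf_pt {A : Type} {Γ : WG A} (ξ : Pt Γ) (K : A → A → Prop)
    (hK : ∀ a b, K a b → Γ.G.Adj a b) (hs : ∀ a b, K a b → K b a)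
    (hfin : {p : A × A | K p.1 p.2}.Finite) (hne : ∃ a b, K a b)
    (hball : ∀ a b, K a b → Th ξ (vtx a) < π / 2) (F : A → Prop)
    (hF : ∀ a b (p : Γ.G.Walk a b), p.IsPath → wt Γ.w p < π → F a → F b → ∀ c ∈ p.support, F c) :
    ∃ a b, K a b ∧ (∀ c, K a c → c = b) ∧ (F a → F b) := by
  rcases ξ.cases with ⟨n, rfl⟩ | ⟨a, b, hab, hon, ha, hb⟩
  · refine good_leaf Γ.circ Γ.lt_pi n K hK hs hfin hne (fun c d hcd => ?_) F hF
    obtain ⟨p, -, hp⟩ := exists_geod (lt_trans (hball c d hcd) (by linarith [pi_pos]))
    exact ⟨p, by rw [hp]; exact hball c d hcd⟩
  · have hw := Γ.pos hab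
    have hsum := ξ.sum hab.ne hon
    have h3 : 0 < Γ.w a b * ξ.f b := mul_pos hw hb
    have h4 : Γ.w a b * ξ.f b < Γ.w a b := by nlinarith
    have hS := ins_sub hab h3 h4
    have hpn := pj_vtx_none hab h3 h4 hon rfl
    let K' : Option A → Option A → Prop := fun x y =>
      x.elim (y.elim False fun d => (d = a ∨ d = b) ∧ K a b) fun c =>
        y.elim ((c = a ∨ c = b) ∧ K a b) fun d => K c d ∧ ¬ (c = a ∧ d = b) ∧ ¬ (c = b ∧ d = a)
    have hKab : ∀ c, (c = a ∨ c = b) → K a b → ∃ d, K c d := by
      rintro c (rfl | rfl) h
      · exact ⟨_, h⟩
      · exact ⟨_, hs _ _ h⟩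
    obtain ⟨x, y, h5, h6, h7⟩ := good_leaf (Ins Γ hab h3 h4).circ (Ins Γ hab h3 h4).lt_pi none K'
      (by
        rintro (_ | c) (_ | d) h
        · exact h
        · exact h.1
        · exact h.1
        · exact ⟨hK c d h.1, h.2.1, h.2.2⟩)
      (by
        rintro (_ | c) (_ | d) h
        · exact h
        · exact h
        · exact h
        · exact ⟨hs _ _ h.1, fun h' => h.2.2 ⟨h'.2, h'.1⟩, fun h' => h.2.1 ⟨h'.2, h'.1⟩⟩)
      (by
        refine Set.Finite.subset ((hfin.image fun p => ((some p.1 : Option A), (some p.2 : Option A))).union
          (Set.toFinite {((none : Option A), (some a : Option A)), (none, some b), (some a, none),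
            (some b, none)})) ?_
        rintro ⟨_ | c, _ | d⟩ h
        · exact h.elim
        · right
          rcases h.1 with rfl | rfl <;> simp
        · right
          rcases h.1 with rfl | rfl <;> simp
        · left
          exact ⟨(c, d), h.1, rfl⟩)
      (by
        obtain ⟨c, d, hcd⟩ := hne
        by_cases e1 : c = a ∧ d = b
        · obtain ⟨rfl, rfl⟩ := e1
          exact ⟨some c, none, Or.inl rfl, hcd⟩
        · by_cases e2 : c = b ∧ d = a
          · obtain ⟨rfl, rfl⟩ := e2
            exact ⟨some c, none, Or.inr rfl, hs _ _ hcd⟩
          · exact ⟨some c, some d, hcd, e1, e2⟩)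
      (by
        rintro (_ | c) y h
        · exact ⟨Walk.nil, by rw [wt_nil]; linarith [pi_pos]⟩
        · have h8 : ∃ d, K c d := by
            rcases y with _ | d
            · exact hKab c h.1 h.2
            · exact ⟨d, h.1⟩
          obtain ⟨d, h8⟩ := h8
          have h9 := hball c d h8
          rw [← hpn, ← pj_vtx hab h3 h4, hS.th] at h9
          obtain ⟨p, -, hp⟩ := exists_geod (lt_trans h9 (by linarith [pi_pos]))
          exact ⟨p, by rw [hp]; exact h9⟩)
      (fun x => x.elim (F a ∧ F b) F)
      (fun x y p hp hwp hx hy => ins_conv Γ.circ hab h3 h4 hF x y p hp hwp hx hy)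
    rcases x with _ | c
    · rcases y with _ | d
      · exact h5.elim
      · have e1 := h6 (some a) ⟨Or.inl rfl, h5.2⟩
        have e2 := h6 (some b) ⟨Or.inr rfl, h5.2⟩
        exact absurd (Option.some_injective _ (e1.trans e2.symm)) hab.ne
    · rcases y with _ | d
      · have h8 : ∀ e, K c e → ¬ (c = a ∧ e = b) → ¬ (c = b ∧ e = a) → False := by
          intro e he h9 h10
          have := h6 (some e) ⟨he, h9, h10⟩
          simp at this
        rcases h5.1 with rfl | rfl
        · refine ⟨c, b, h5.2, fun e he => ?_, fun hc => (h7 hc).2⟩
          by_contra hne'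
          exact h8 e he (fun h => hne' h.2) (fun h => hab.ne h.1)
        · refine ⟨c, a, hs _ _ h5.2, fun e he => ?_, fun hc => (h7 hc).1⟩
          by_contra hne'
          exact h8 e he (fun h => hab.ne h.1.symm) (fun h => hne' h.2)
      · refine ⟨c, d, h5.1, fun e he => ?_, h7⟩
        by_cases e1 : c = a ∧ e = b
        · obtain ⟨rfl, rfl⟩ := e1
          have := h6 none ⟨Or.inl rfl, he⟩
          simp at this
        · by_cases e2 : c = b ∧ e = a
          · obtain ⟨rfl, rfl⟩ := e2
            have := h6 none ⟨Or.inr rfl, hs _ _ he⟩
            simp at this
          · exact Option.some_injective _ (h6 (some e) ⟨he, e1, e2⟩)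

end Pool.Agent.Helper26.GT
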