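import Pool.Agent.Helper26.GT.LeafPt
import Pool.Agent.Helper26.GT.Compl
import Pool.Agent.Helper13.GT.GeoU

/-!
# The links of a piecewise Euclidean complex as metric graphs
-/

set_option autoImplicit false

namespace Pool.Agent.Helper26.GT

open Pool.Agent.Helper50.GT Real Pool.Agent.Helper3.FJ Pool.Agent.Helper3.FJ.Cpx

variable {W : Type} {U : Cpx W} {ℓ : W → W → ℝ}

theorem tri_swap {a b c : W} (h : U.tri a b c) : U.tri a c b := by
  -- `a b c` -> `b c a` -> `c b a` -> `b a c` -> ...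
  exact U.tri_flip _ _ _ (U.tri_rot _ _ _ (U.tri_rot _ _ _ h))

theorem tri_adj2 {a b c : W} (h : U.tri a b c) : U.adj a c := U.tri_adj _ _ _ (tri_swap h)

theorem tri_adj3 {a b c : W} (h : U.tri a b c) : U.adj b c :=
  U.tri_adj _ _ _ (U.tri_rot _ _ _ h)

theorem ang_comm (hM : U.Metric ℓ) (v a b : W) : ang ℓ v a b = ang ℓ v b a := by
  unfold ang
  rw [hM.symm b a]
  congr 1
  ring

theorem cos_arg (hM : U.Metric ℓ) {v a b : W} (h : U.tri v a b) :
    -1 < (ℓ v a ^ 2 + ℓ v b ^ 2 - ℓ a b ^ 2) / (2 * ℓ v a * ℓ v b) ∧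
      (ℓ v a ^ 2 + ℓ v b ^ 2 - ℓ a b ^ 2) / (2 * ℓ v a * ℓ v b) < 1 := by
  have a0 : 0 < ℓ v a := hM.pos _ _ (U.tri_adj _ _ _ h)
  have b0 : 0 < ℓ v b := hM.pos _ _ (tri_adj2 h)
  have c0 : 0 < ℓ a b := hM.pos _ _ (tri_adj3 h)
  have t1 := hM.tri _ _ _ h
  have t2 := hM.tri _ _ _ (U.tri_flip _ _ _ h)
  have t3 := hM.tri _ _ _ (tri_swap h)
  have e1 := hM.symm a v
  have e2 := hM.symm b v
  have e3 := hM.symm b a
  constructor
  · rw [lt_div_iff₀ (by positivity)]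
    nlinarith
  · rw [div_lt_one (by positivity)]
    have h1 : ℓ v a - ℓ v b < ℓ a b := by linarith
    have h2 : ℓ v b - ℓ v a < ℓ a b := by linarith
    nlinarith

theorem cos_ang (hM : U.Metric ℓ) {v a b : W} (h : U.tri v a b) :
    2 * ℓ v a * ℓ v b * cos (ang ℓ v a b) = ℓ v a ^ 2 + ℓ v b ^ 2 - ℓ a b ^ 2 := by
  obtain ⟨h1, h2⟩ := cos_arg hM h
  have a0 : 0 < ℓ v a := hM.pos _ _ (U.tri_adj _ _ _ h)
  have b0 : 0 < ℓ v b := hM.pos _ _ (tri_adj2 h)
  rw [ang, cos_arccos h1.le h2.le]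
  field_simp

theorem ang_pos (hM : U.Metric ℓ) {v a b : W} (h : U.tri v a b) : 0 < ang ℓ v a b := by
  rw [ang, arccos_pos]
  exact (cos_arg hM h).2

theorem ang_lt_pi (hM : U.Metric ℓ) {v a b : W} (h : U.tri v a b) : ang ℓ v a b < π := by
  rw [ang]
  refine lt_of_le_of_ne (arccos_le_pi _) fun he => ?_
  rw [arccos_eq_pi] at he
  linarith [(cos_arg hM h).1]

/-- The neighbours of a vertex. -/
abbrev LkV (U : Cpx W) (v : W) : Type := {a : W // U.adj v a}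

/-- The link of a vertex as a graph. -/
def lkG (U : Cpx W) (v : W) : SimpleGraph (LkV U v) where
  Adj a b := U.tri v a.1 b.1
  symm := ⟨fun _ _ h => tri_swap h⟩
  loopless := ⟨fun _ h => U.adj_irrefl _ (tri_adj3 h)⟩

/-- The link of a vertex as a metric graph. -/
noncomputable def lkWG (hM : U.Metric ℓ) (hL : U.LinkCond ℓ) (v : W) : WG (LkV U v) where
  G := lkG U v
  w a b := ang ℓ v a.1 b.1
  circ :=
    { symm := fun a b => ang_comm hM v a.1 b.1
      pos := fun _ _ h => ang_pos hM h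
      circ := fun k u hu hadj => hL v k (fun i => (u i).1)
        (fun _ _ hij => hu (Subtype.ext hij)) hadj }
  lt_pi _ _ h := ang_lt_pi hM h

/-- The convexity of the fixed directions, in terms of walks. -/
theorem lconv_walk (hM : U.Metric ℓ) (hL : U.LinkCond ℓ) {F : W → W → Prop}
    (hC : Pool.Agent.Helper13.GT.LConv U ℓ F) (v : W) (a b : LkV U v)
    (p : (lkWG hM hL v).G.Walk a b) (hp : p.IsPath) (hw : wt (lkWG hM hL v).w p < π)
    (ha : F v a.1) (hb : F v b.1) : ∀ c ∈ p.support, F v c.1 := by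
  intro c hc
  obtain ⟨i, hi, hi'⟩ := SimpleGraph.Walk.mem_support_iff_exists_getVert.1 hc
  have := hC v p.length (fun i => (p.getVert i).1) (fun i hi => p.adj_getVert_succ hi)
    (fun i hi he => NB.of_isPath hp i (by omega) (Subtype.ext he))
    (by rw [wt_eq_sum] at hw; exact hw) (by simpa using ha) (by simpa using hb) i hi'
  rw [← hi]
  exact this

/-- The angles are bounded away from `0` and `π`. -/
theorem exists_sin (hM : U.Metric ℓ) (hS : Pool.Agent.Helper13.GT.Shapes U ℓ) :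
    ∃ σ : ℝ, 0 < σ ∧ σ ≤ 1 ∧ ∀ v a b, U.tri v a b → σ ≤ sin (ang ℓ v a b) := by
  have hfin : {s : ℝ | ∃ v a b, U.tri v a b ∧ sin (ang ℓ v a b) = s}.Finite := by
    have h1 := (hS.prod (hS.prod hS)).image fun t : ℝ × ℝ × ℝ =>
      sin (arccos ((t.1 ^ 2 + t.2.1 ^ 2 - t.2.2 ^ 2) / (2 * t.1 * t.2.1)))
    refine h1.subset ?_
    rintro _ ⟨v, a, b, h, rfl⟩
    exact ⟨(ℓ v a, ℓ v b, ℓ a b), ⟨⟨v, a, U.tri_adj _ _ _ h, rfl⟩, ⟨v, b, tri_adj2 h, rfl⟩,
      ⟨a, b, tri_adj3 h, rfl⟩⟩, rfl⟩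
  have hfin' := hfin.insert 1
  obtain ⟨σ, hσ, hmin⟩ := hfin'.exists_minimal (Set.insert_nonempty _ _)
  have hmin' : ∀ s ∈ insert (1 : ℝ) {s : ℝ | ∃ v a b, U.tri v a b ∧ sin (ang ℓ v a b) = s},
      σ ≤ s := fun s hs => by
    by_contra hlt
    push Not at hlt
    exact absurd (hmin hs hlt.le) (not_le.2 hlt)
  refine ⟨σ, ?_, hmin' 1 (Set.mem_insert _ _), fun v a b h =>
    hmin' _ (Set.mem_insert_of_mem _ ⟨v, a, b, h, rfl⟩)⟩
  rcases hσ with rfl | ⟨v, a, b, h, rfl⟩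
  · norm_num
  · exact sin_pos_of_pos_of_lt_pi (ang_pos hM h) (ang_lt_pi hM h)

theorem lk_complete (hM : U.Metric ℓ) (hL : U.LinkCond ℓ)
    (hS : Pool.Agent.Helper13.GT.Shapes U ℓ) (v : W) : CompleteSpace (CPt (lkWG hM hL v)) := by
  obtain ⟨σ, h1, h2, h3⟩ := exists_sin hM hS
  exact cone_complete h1 h2 fun a b h => h3 v a.1 b.1 h

/-- The Euclidean norm in barycentric coordinates. -/
theorem qf_bary (hM : U.Metric ℓ) {v a b : W} (h : U.tri v a b) {hv ha hb : ℝ}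
    (h0 : hv + ha + hb = 0) :
    qf (ang ℓ v a b) (ha * ℓ v a) (hb * ℓ v b) =
      -(hv * ha * ℓ v a ^ 2 + hv * hb * ℓ v b ^ 2 + ha * hb * ℓ a b ^ 2) := by
  unfold qf
  have h1 := cos_ang hM h
  have h2 : hv = - ha - hb := by linarith
  rw [h2]
  linear_combination ha * hb * h1

end Pool.Agent.Helper26.GT
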