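import Pool.Agent.Helper26.GT.Lk

/-!
# Scaling in the cone
-/

set_option autoImplicit false

namespace Pool.Agent.Helper26.GT

open Pool.Agent.Helper50.GT Real Pool.Agent.Helper3.FJ Pool.Agent.Helper3.FJ.Cpx

section

variable {A : Type} {Γ : WG A}

/-- Scaling. -/
def CPt.smul (t : ℝ) (ht : 0 ≤ t) (x : CPt Γ) : CPt Γ where
  f a := t * x.f a
  nonneg a := mul_nonneg ht (x.nonneg a)
  ex := by
    rcases x.ex with h | ⟨a, b, hab, h⟩
    · exact Or.inl fun a => by rw [h a, mul_zero]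
    · refine Or.inr ⟨a, b, hab, fun c h1 h2 => ?_⟩
      simp only
      rw [h c h1 h2, mul_zero]

theorem smul_f (t : ℝ) (ht : 0 ≤ t) (x : CPt Γ) (a : A) : (x.smul t ht).f a = t * x.f a := rfl

theorem smul_pc {t r : ℝ} (ht : 0 ≤ t) (hr : 0 ≤ r) (x : Pt Γ) :
    (pc r hr x).smul t ht = pc (t * r) (mul_nonneg ht hr) x :=
  CPt.ext fun c => by rw [smul_f, pc_f, pc_f, mul_assoc]

theorem dist_of_isEmpty (hA : ¬ Nonempty A) (x y : CPt Γ) : dist x y = 0 := by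
  have : x = y := CPt.ext fun a => absurd ⟨a⟩ hA
  rw [this, dist_self]

theorem dist_smul (t : ℝ) (ht : 0 ≤ t) (x y : CPt Γ) :
    dist (x.smul t ht) (y.smul t ht) = t * dist x y := by
  by_cases hA : Nonempty A
  · obtain ⟨r, hr, u, rfl⟩ := exists_pc x hA
    obtain ⟨s, hs, v, rfl⟩ := exists_pc y hA
    rw [smul_pc, smul_pc, dist_pc, dist_pc, ← sqrt_sq ht, ← sqrt_mul (sq_nonneg t), sqrt_sq ht]
    congr 1
    unfold lc
    ring
  · rw [dist_of_isEmpty hA, dist_of_isEmpty hA, mul_zero]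

/-- The apex. -/
def apex (Γ : WG A) : CPt Γ where
  f _ := 0
  nonneg _ := le_rfl
  ex := Or.inl fun _ => rfl

theorem dist_smul_smul (s t : ℝ) (hs : 0 ≤ s) (ht : 0 ≤ t) (x : CPt Γ) :
    dist (x.smul s hs) (x.smul t ht) = |s - t| * dist x (apex Γ) := by
  by_cases hA : Nonempty A
  · obtain ⟨r, hr, u, rfl⟩ := exists_pc x hA
    have h1 : apex Γ = pc 0 le_rfl u := CPt.ext fun c => by
      rw [pc_f, zero_mul]
      rfl
    rw [smul_pc, smul_pc, h1, dist_pc, dist_pc, Th.self, sqrt_lc_zero, sqrt_lc_zero, ← sub_mul,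
      abs_mul, sub_zero]
  · rw [dist_of_isEmpty hA, dist_of_isEmpty hA, mul_zero]

end

section

variable {W : Type} {U : Cpx W} {ℓ : W → W → ℝ}

/-- The lengths of the edges are bounded away from zero and infinity. -/
theorem exists_len (hM : U.Metric ℓ) (hS : Pool.Agent.Helper13.GT.Shapes U ℓ) :
    ∃ m M : ℝ, 0 < m ∧ m ≤ M ∧ ∀ u v, U.adj u v → m ≤ ℓ u v ∧ ℓ u v ≤ M := by
  have hfin := Set.Finite.insert 1 hS
  obtain ⟨m, hm, hmin⟩ := hfin.exists_minimal (Set.insert_nonempty _ _)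
  obtain ⟨M, hM', hmax⟩ := hfin.exists_maximal (Set.insert_nonempty _ _)
  have hmin' : ∀ s ∈ insert (1 : ℝ) {x : ℝ | ∃ u v, U.adj u v ∧ ℓ u v = x}, m ≤ s := fun s hs => by
    by_contra hlt
    push Not at hlt
    exact absurd (hmin hs hlt.le) (not_le.2 hlt)
  have hmax' : ∀ s ∈ insert (1 : ℝ) {x : ℝ | ∃ u v, U.adj u v ∧ ℓ u v = x}, s ≤ M := fun s hs => by
    by_contra hlt
    push Not at hlt
    exact absurd (hmax hs hlt.le) (not_le.2 hlt)
  refine ⟨m, M, ?_, hmin' M hM', fun u v h => ⟨hmin' _ (Set.mem_insert_of_mem _ ⟨u, v, h, rfl⟩),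
    hmax' _ (Set.mem_insert_of_mem _ ⟨u, v, h, rfl⟩)⟩⟩
  rcases hm with rfl | ⟨u, v, h, rfl⟩
  · norm_num
  · exact hM.pos _ _ h

end

end Pool.Agent.Helper26.GT
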