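import Pool.Agent.Helper26.GT.Fin
import Pool.Agent.Helper50.GT.StRz
import Pool.Agent.Helper13.GT.SdMain
import Pool.Agent.Helper3.GT.Loc

/-!
# Groups acting on piecewise Euclidean complexes of dimension two
-/

set_option autoImplicit false

namespace Pool.Agent.Helper26.GT

open Real Pool.Agent.Helper63.GT Pool.Agent.Helper37.CH Pool.Agent.Helper29.BA
  Pool.Agent.Helper29.PA Pool.Agent.Helper3.FJ Pool.Agent.Helper3.FJ.Cpx Pool.Agent.Helper13.GT

/-- The realization satisfies the hypotheses of the theorem of Cartan and Hadamard. -/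
theorem rz_hyp {W : Type} (D : PE W) (hU : D.U.SimplyConn) :
    Hyp (Rz D) (D.ρ / 2) (D.ρ / 32) where
  cat := rz_locCat D
  complete := rz_complete D
  pos := by
    have := D.ρ_pos
    linarith
  le := by linarith
  sc := by
    have := D.ρ_pos
    exact Pool.Agent.Helper50.GT.rz_scAt D hU (rz_locCat D) (by linarith) (by linarith)
      (by linarith)

/-- **The free edge theorem.** -/
theorem geoU : GeoU := geoU_of_hyp fun D hU => ⟨_, _, rz_hyp D hU⟩

/-- Groups acting by isometries on simply connected piecewise Euclidean complexes of dimension two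
with the link condition. -/
theorem mainGT {V : Type} {X : Cpx V} {C : ∀ (G : Type) [Group G], Prop} (hC : CatClass C)
    (hE : ExtClass C) {G : Type} [Group G] [MulAction G V] {ℓ : V → V → ℝ} (hM : X.Metric ℓ)
    (hL : X.LinkCond ℓ) (hX : X.SimplyConn) (hA : X.Acts G)
    (hI : ∀ (g : G) u v, ℓ (g • u) (g • v) = ℓ u v)
    (hQ : ∀ K : Finset (Smp X), ∃ (Q : Type) (_ : Group Q) (f : G →* Q), C Q ∧
      ∀ a ∈ K, ∀ g : G, (∀ x ∈ a.s, g • x ∈ a.s) → f g = 1 → g = 1) : C G :=
  mainSd geoU (fun hN => Pool.Agent.Helper3.GT.loc hN) hC hE hM hL hX hA hI hQ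

end Pool.Agent.Helper26.GT
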