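import Pool.Agent.Helper26.GT.Ang

/-!
# Points of the cone over a metric graph and polar coordinates
-/

set_option autoImplicit false

namespace Pool.Agent.Helper26.GT

open Pool.Agent.Helper50.GT Real

variable {A : Type}

/-- The points of the cone over a metric graph, in linear coordinates. -/
structure CPt (Γ : WG A) where
  f : A → ℝ
  nonneg : ∀ a, 0 ≤ f a
  ex : (∀ a, f a = 0) ∨ ∃ a b, (a = b ∨ Γ.G.Adj a b) ∧ On f a b

variable {Γ : WG A}

theorem CPt.ext {x y : CPt Γ} (h : ∀ a, x.f a = y.f a) : x = y := by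
  cases x
  cases y
  congr
  exact funext h

/-- The quadratic form of a sector. -/
noncomputable def qf (w u v : ℝ) : ℝ := u ^ 2 + v ^ 2 + 2 * u * v * cos w

theorem qf_comm (w u v : ℝ) : qf w u v = qf w v u := by
  unfold qf
  ring

theorem qf_eq (w u v : ℝ) : qf w u v = (u + v * cos w) ^ 2 + (v * sin w) ^ 2 := by
  unfold qf
  linear_combination (-v ^ 2) * sin_sq_add_cos_sq w

theorem qf_nonneg (w u v : ℝ) : 0 ≤ qf w u v := by
  rw [qf_eq]
  positivity

open Classical in
/-- The length of the edge of a point which is not a vertex. -/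
noncomputable def wx (x : Pt Γ) : ℝ :=
  if h : ∃ p : A × A, Γ.G.Adj p.1 p.2 ∧ On x.f p.1 p.2 ∧ 0 < x.f p.1 ∧ 0 < x.f p.2 then
    Γ.w h.choose.1 h.choose.2 else π / 2

theorem wx_edge {x : Pt Γ} {a b : A} (hab : Γ.G.Adj a b) (h : On x.f a b) (ha : 0 < x.f a)
    (hb : 0 < x.f b) : wx x = Γ.w a b := by
  have hex : ∃ p : A × A, Γ.G.Adj p.1 p.2 ∧ On x.f p.1 p.2 ∧ 0 < x.f p.1 ∧ 0 < x.f p.2 :=
    ⟨(a, b), hab, h, ha, hb⟩
  rw [wx, dif_pos hex]
  obtain ⟨h1, h2, h3, h4⟩ := hex.choose_spec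
  rcases Pt.edge_unique h h3.ne' h4.ne' h1.ne with ⟨h5, h6⟩ | ⟨h5, h6⟩
  · rw [h5, h6]
  · rw [h5, h6, Γ.symm]

theorem wx_pos (x : Pt Γ) : 0 < wx x ∧ wx x < π := by
  by_cases hex : ∃ p : A × A, Γ.G.Adj p.1 p.2 ∧ On x.f p.1 p.2 ∧ 0 < x.f p.1 ∧ 0 < x.f p.2
  · rw [wx, dif_pos hex]
    exact ⟨Γ.pos hex.choose_spec.1, Γ.lt_pi _ _ hex.choose_spec.1⟩
  · rw [wx, dif_neg hex]
    exact ⟨by linarith [pi_pos], by linarith [pi_pos]⟩

theorem Pt.le_one' (x : Pt Γ) (a : A) : x.f a ≤ 1 := by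
  rcases x.cases with ⟨c, rfl⟩ | ⟨c, d, hcd, hon, hc, hd⟩
  · by_cases h : a = c
    · rw [h, vtx_self]
    · rw [vtx_ne h]
      norm_num
  · have hs := x.sum hcd.ne hon
    by_cases h : a = c
    · rw [h]
      linarith
    · by_cases h' : a = d
      · rw [h']
        linarith
      · rw [hon a h h']
        norm_num

/-- The coordinates of the unit vector in the direction `x`. -/
noncomputable def sd (x : Pt Γ) (c : A) : ℝ := sin (wx x * x.f c) / sin (wx x)

theorem sin_wx (x : Pt Γ) : 0 < sin (wx x) := sin_pos_of_pos_of_lt_pi (wx_pos x).1 (wx_pos x).2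

theorem sin_w {a b : A} (h : Γ.G.Adj a b) : 0 < sin (Γ.w a b) :=
  sin_pos_of_pos_of_lt_pi (Γ.pos h) (Γ.lt_pi a b h)

theorem sd_nonneg (x : Pt Γ) (c : A) : 0 ≤ sd x c := by
  refine div_nonneg (sin_nonneg_of_nonneg_of_le_pi (mul_nonneg (wx_pos x).1.le (x.nonneg c)) ?_)
    (sin_wx x).le
  have := x.le_one' c
  nlinarith [wx_pos x]

theorem sd_zero {x : Pt Γ} {c : A} (h : x.f c = 0) : sd x c = 0 := by
  rw [sd, h, mul_zero, sin_zero, zero_div]

theorem sd_pos {x : Pt Γ} {c : A} (h : 0 < x.f c) : 0 < sd x c := by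
  refine div_pos (sin_pos_of_pos_of_lt_pi (mul_pos (wx_pos x).1 h) ?_) (sin_wx x)
  have := x.le_one' c
  nlinarith [wx_pos x]

theorem sd_vtx (a : A) : sd (vtx a : Pt Γ) a = 1 := by
  rw [sd, vtx_self, mul_one, div_self (sin_wx _).ne']

/-- The coordinates in each closed edge. -/
theorem sd_edge {x : Pt Γ} {a b : A} (hab : Γ.G.Adj a b) (h : On x.f a b) :
    sd x a * sin (Γ.w a b) = sin (Γ.w a b * x.f a) := by
  have hs := x.sum hab.ne h
  rcases lt_or_eq_of_le (x.nonneg a) with ha | ha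
  · rcases lt_or_eq_of_le (x.nonneg b) with hb | hb
    · rw [sd, wx_edge hab h ha hb, div_mul_cancel₀ _ (sin_w hab).ne']
    · have hx := x.eq_vtx_of hab.ne h hb.symm
      rw [hx, sd_vtx, vtx_self, one_mul, mul_one]
  · rw [sd_zero ha.symm, ← ha, zero_mul, mul_zero, sin_zero]

/-- The point with polar coordinates `r` and `x`. -/
noncomputable def pc (r : ℝ) (hr : 0 ≤ r) (x : Pt Γ) : CPt Γ where
  f c := r * sd x c
  nonneg c := mul_nonneg hr (sd_nonneg x c)
  ex := by
    refine Or.inr ?_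
    rcases x.cases with ⟨a, rfl⟩ | ⟨a, b, hab, hon, ha, hb⟩
    · refine ⟨a, a, Or.inl rfl, fun c hc _ => ?_⟩
      simp only
      rw [sd_zero (vtx_ne hc), mul_zero]
    · refine ⟨a, b, Or.inr hab, fun c h1 h2 => ?_⟩
      simp only
      rw [sd_zero (hon c h1 h2), mul_zero]

theorem pc_f (r : ℝ) (hr : 0 ≤ r) (x : Pt Γ) (c : A) : (pc r hr x).f c = r * sd x c := rfl

theorem pc_on {r : ℝ} {hr : 0 ≤ r} {x : Pt Γ} {a b : A} (h : On x.f a b) :
    On (pc r hr x).f a b := fun c h1 h2 => by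
  rw [pc_f, sd_zero (h c h1 h2), mul_zero]

theorem on_of_pc {r : ℝ} (hr : 0 < r) {x : Pt Γ} {a b : A} (h : On (pc r hr.le x).f a b) :
    On x.f a b := fun c h1 h2 => by
  by_contra hne
  have h3 := sd_pos (lt_of_le_of_ne (x.nonneg c) (Ne.symm hne))
  have h4 := h c h1 h2
  rw [pc_f] at h4
  have := mul_pos hr h3
  linarith

/-- Polar coordinates in a sector. -/
theorem pc_cos {r : ℝ} {hr : 0 ≤ r} {x : Pt Γ} {a b : A} (hab : Γ.G.Adj a b) (h : On x.f a b) :
    r * cos (Γ.w a b * x.f b) = (pc r hr x).f a + (pc r hr x).f b * cos (Γ.w a b) ∧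
      r * sin (Γ.w a b * x.f b) = (pc r hr x).f b * sin (Γ.w a b) := by
  have hs := x.sum hab.ne h
  have h1 := sd_edge hab h
  have h2 := sd_edge hab.symm h.symm
  rw [Γ.symm b a] at h2
  have hw := sin_w hab
  have h3 : Γ.w a b * x.f a = Γ.w a b - Γ.w a b * x.f b := by linear_combination Γ.w a b * hs
  rw [h3, sin_sub] at h1
  constructor
  · rw [pc_f, pc_f]
    refine mul_right_cancel₀ hw.ne' ?_
    linear_combination - r * h1 - r * cos (Γ.w a b) * h2
  · rw [pc_f]
    linear_combination - r * h2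

theorem pc_qf {r : ℝ} {hr : 0 ≤ r} {x : Pt Γ} {a b : A} (hab : Γ.G.Adj a b)
    (h : On (pc r hr x).f a b) : qf (Γ.w a b) ((pc r hr x).f a) ((pc r hr x).f b) = r ^ 2 := by
  rcases lt_or_eq_of_le hr with hr' | rfl
  · obtain ⟨h1, h2⟩ := pc_cos (r := r) (hr := hr) hab (on_of_pc hr' h)
    rw [qf_eq, ← h1, ← h2]
    linear_combination r ^ 2 * sin_sq_add_cos_sq (Γ.w a b * x.f b)
  · rw [pc_f, pc_f, zero_mul, zero_mul]
    unfold qf
    ring

theorem pc_inj {r s : ℝ} {hr : 0 < r} {hs : 0 ≤ s} {x y : Pt Γ} (h : pc r hr.le x = pc s hs y) :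
    r = s ∧ x = y := by
  have hf : ∀ c, r * sd x c = s * sd y c := fun c => congrArg (fun z : CPt Γ => z.f c) h
  rcases x.cases with ⟨a, rfl⟩ | ⟨a, b, hab, hon, ha, hb⟩
  · have h1 := hf a
    rw [sd_vtx, mul_one] at h1
    have hs' : 0 < s := by
      rcases lt_or_eq_of_le hs with h' | h'
      · exact h'
      · rw [← h', zero_mul] at h1
        linarith
    have hy : y = vtx a := by
      rcases y.cases with ⟨c, rfl⟩ | ⟨c, d, hcd, hon', hc, hd⟩
      · by_cases hac : a = c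
        · rw [hac]
        · rw [sd_zero (vtx_ne hac), mul_zero] at h1
          linarith
      · exfalso
        have key : ∀ e, 0 < y.f e → e = a := by
          intro e he
          by_contra hne
          have h2 := hf e
          rw [sd_zero (vtx_ne hne), mul_zero] at h2
          have := mul_pos hs' (sd_pos he)
          linarith
        exact hcd.ne ((key c hc).trans (key d hd).symm)
    rw [hy] at h1 ⊢
    rw [sd_vtx, mul_one] at h1
    exact ⟨h1, rfl⟩
  · have hpon : On (pc r hr.le x).f a b := pc_on hon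
    have h1 := pc_qf hab hpon
    have hpon' := hpon
    rw [h] at h1 hpon'
    have h2 := pc_qf hab hpon'
    have hrs : r = s := by
      have h3 : r ^ 2 = s ^ 2 := h1.symm.trans h2
      nlinarith
    subst hrs
    have hony := on_of_pc hr hpon'
    refine ⟨rfl, ?_⟩
    obtain ⟨e1, -⟩ := pc_cos (r := r) (hr := hr.le) hab hon
    obtain ⟨e2, -⟩ := pc_cos (r := r) (hr := hr.le) hab hony
    rw [h, ← e2] at e1
    have e3 := mul_left_cancel₀ hr.ne' e1
    have hw := Γ.pos hab
    have hw' := Γ.lt_pi a b hab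
    have i1 : ∀ z : Pt Γ, Γ.w a b * z.f b ∈ Set.Icc (0 : ℝ) π := fun z =>
      ⟨mul_nonneg hw.le (z.nonneg b), by nlinarith [z.le_one' b]⟩
    have e4 := injOn_cos (i1 x) (i1 y) e3
    exact Pt.eq_of_on hab.ne hon hony (mul_left_cancel₀ hw.ne' e4)

theorem pc_surj [Nonempty A] (f : CPt Γ) : ∃ (r : ℝ) (hr : 0 ≤ r) (x : Pt Γ), f = pc r hr x := by
  -- the points of a sector
  have key : ∀ a b, Γ.G.Adj a b → On f.f a b → 0 < f.f a → 0 < f.f b →
      ∃ (r : ℝ) (hr : 0 ≤ r) (x : Pt Γ), f = pc r hr x := by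
    intro a b hab hon ha hb
    have hw := Γ.pos hab
    have hw' := Γ.lt_pi a b hab
    have hsw := sin_w hab
    obtain ⟨r, hr⟩ : ∃ r, r = sqrt (qf (Γ.w a b) (f.f a) (f.f b)) := ⟨_, rfl⟩
    have hq : r ^ 2 = (f.f a + f.f b * cos (Γ.w a b)) ^ 2 + (f.f b * sin (Γ.w a b)) ^ 2 := by
      rw [hr, sq_sqrt (qf_nonneg _ _ _), qf_eq]
    have hbs : 0 < f.f b * sin (Γ.w a b) := mul_pos hb hsw
    have hr0 : 0 ≤ r := by
      rw [hr]
      exact sqrt_nonneg _
    have hrp : 0 < r := by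
      rcases lt_or_eq_of_le hr0 with h | h
      · exact h
      · rw [← h] at hq
        nlinarith [sq_nonneg (f.f a + f.f b * cos (Γ.w a b))]
    obtain ⟨β, hβ⟩ : ∃ β, β = arccos ((f.f a + f.f b * cos (Γ.w a b)) / r) := ⟨_, rfl⟩
    have hle : |f.f a + f.f b * cos (Γ.w a b)| ≤ r := by
      refine abs_le_of_sq_le_sq ?_ hr0
      nlinarith
    obtain ⟨hle1, hle2⟩ := abs_le.1 hle
    have hcos : cos β = (f.f a + f.f b * cos (Γ.w a b)) / r := by
      rw [hβ, cos_arccos]
      · rw [le_div_iff₀ hrp]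
        linarith
      · rw [div_le_one hrp]
        exact hle2
    have hβ0 : 0 ≤ β := by
      rw [hβ]
      exact arccos_nonneg _
    have hβ1 : β ≤ π := by
      rw [hβ]
      exact arccos_le_pi _
    have hsin0 : 0 ≤ sin β := sin_nonneg_of_nonneg_of_le_pi hβ0 hβ1
    have hrc : r * cos β = f.f a + f.f b * cos (Γ.w a b) := by
      rw [hcos]
      field_simp
    have hrs : r * sin β = f.f b * sin (Γ.w a b) := by
      have h1 : (r * sin β) ^ 2 = (f.f b * sin (Γ.w a b)) ^ 2 := by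
        have h2 := sin_sq_add_cos_sq β
        have h3 : (r * sin β) ^ 2 = r ^ 2 - (r * cos β) ^ 2 := by
          linear_combination r ^ 2 * h2
        rw [h3, hrc, hq]
        ring
      have h4 : 0 ≤ r * sin β := mul_nonneg hr0 hsin0
      nlinarith
    have hβpos : 0 < β := by
      rcases lt_or_eq_of_le hβ0 with h | h
      · exact h
      · rw [← h, sin_zero, mul_zero] at hrs
        linarith
    have hrs2 : r * sin (Γ.w a b - β) = f.f a * sin (Γ.w a b) := by
      rw [sin_sub]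
      linear_combination sin (Γ.w a b) * hrc - cos (Γ.w a b) * hrs
    have hβw : β < Γ.w a b := by
      by_contra hcon
      push Not at hcon
      have h1 : 0 ≤ sin (β - Γ.w a b) := sin_nonneg_of_nonneg_of_le_pi (by linarith) (by linarith)
      have h2 : sin (Γ.w a b - β) = - sin (β - Γ.w a b) := by
        rw [← sin_neg]
        congr 1
        ring
      rw [h2] at hrs2
      have := mul_pos ha hsw
      nlinarith
    have hu0 : 0 ≤ β / Γ.w a b := by positivity
    have hu1 : β / Γ.w a b ≤ 1 := (div_le_one hw).2 hβw.le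
    refine ⟨r, hr0, seg hab _ hu0 hu1, CPt.ext fun c => ?_⟩
    have hson := seg_on hab _ hu0 hu1
    by_cases hc : c = a
    · subst hc
      rw [pc_f]
      refine mul_right_cancel₀ hsw.ne' ?_
      rw [mul_assoc, sd_edge hab hson, seg_a, mul_sub, mul_one, mul_div_cancel₀ _ hw.ne', hrs2]
    · by_cases hc' : c = b
      · subst hc'
        rw [pc_f]
        refine mul_right_cancel₀ hsw.ne' ?_
        have h1 := sd_edge hab.symm hson.symm
        rw [Γ.symm c a, seg_b, mul_div_cancel₀ _ hw.ne'] at h1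
        rw [mul_assoc, h1, hrs]
      · rw [pc_f, sd_zero (hson c hc hc'), mul_zero, hon c hc hc']
  -- the points of a ray
  have ray : ∀ a, (∀ c, c ≠ a → f.f c = 0) → ∃ (r : ℝ) (hr : 0 ≤ r) (x : Pt Γ), f = pc r hr x := by
    intro a h
    refine ⟨f.f a, f.nonneg a, vtx a, CPt.ext fun c => ?_⟩
    rw [pc_f]
    by_cases hc : c = a
    · rw [hc, sd_vtx, mul_one]
    · rw [h c hc, sd_zero (vtx_ne hc), mul_zero]
  rcases f.ex with h | ⟨a, b, hab, hon⟩
  · obtain ⟨a⟩ := ‹Nonempty A›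
    exact ray a fun c _ => h c
  · rcases hab with rfl | hab
    · exact ray a fun c hc => hon c hc hc
    · rcases lt_or_eq_of_le (f.nonneg a) with ha | ha
      · rcases lt_or_eq_of_le (f.nonneg b) with hb | hb
        · exact key a b hab hon ha hb
        · refine ray a fun c hc => ?_
          by_cases hc' : c = b
          · rw [hc', ← hb]
          · exact hon c hc hc'
      · refine ray b fun c hc => ?_
        by_cases hc' : c = a
        · rw [hc', ← ha]
        · exact hon c hc' hc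

end Pool.Agent.Helper26.GT
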