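import Pool.Agent.Helper50.GT.Graph

/-!
# Metric graphs: points, chains and the truncated distance
-/

set_option autoImplicit false

namespace Pool.Agent.Helper26.GT

open Pool.Agent.Helper50.GT Real

/-- A metric graph: each circuit has length at least `2π`, each edge is shorter than `π`. -/
structure WG (A : Type) where
  G : SimpleGraph A
  w : A → A → ℝ
  circ : Circ G w (2 * π)
  lt_pi : ∀ a b, G.Adj a b → w a b < π

/-- `f` vanishes outside `a` and `b`. -/
def On {A : Type} (f : A → ℝ) (a b : A) : Prop := ∀ c, c ≠ a → c ≠ b → f c = 0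

theorem On.symm {A : Type} {f : A → ℝ} {a b : A} (h : On f a b) : On f b a :=
  fun c h1 h2 => h c h2 h1

variable {A : Type}

/-- The points of a metric graph, in barycentric coordinates. -/
structure Pt (Γ : WG A) where
  f : A → ℝ
  nonneg : ∀ a, 0 ≤ f a
  ex : (∃ a, f a = 1 ∧ ∀ c, c ≠ a → f c = 0) ∨ ∃ a b, Γ.G.Adj a b ∧ On f a b ∧ f a + f b = 1

variable {Γ : WG A}

theorem WG.symm (Γ : WG A) (a b : A) : Γ.w a b = Γ.w b a := Γ.circ.symm a b

theorem WG.pos (Γ : WG A) {a b : A} (h : Γ.G.Adj a b) : 0 < Γ.w a b := Γ.circ.pos a b h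

theorem WG.nonneg (Γ : WG A) : ∀ a b, Γ.G.Adj a b → 0 ≤ Γ.w a b := fun _ _ h => (Γ.pos h).le

theorem Pt.ext {x y : Pt Γ} (h : ∀ a, x.f a = y.f a) : x = y := by
  cases x
  cases y
  congr
  exact funext h

open Classical in
/-- A vertex as a point. -/
noncomputable def vtx (a : A) : Pt Γ where
  f c := if c = a then 1 else 0
  nonneg c := by split_ifs <;> norm_num
  ex := Or.inl ⟨a, if_pos rfl, fun c hc => if_neg hc⟩

@[simp] theorem vtx_self (a : A) : (vtx a : Pt Γ).f a = 1 := if_pos rfl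

theorem vtx_ne {a c : A} (h : c ≠ a) : (vtx a : Pt Γ).f c = 0 := if_neg h

theorem eq_vtx {x : Pt Γ} {a : A} (h : x.f a = 1) (h' : ∀ c, c ≠ a → x.f c = 0) : x = vtx a :=
  Pt.ext fun c => by
    by_cases hc : c = a
    · rw [hc, h, vtx_self]
    · rw [h' c hc, vtx_ne hc]

theorem vtx_inj {a b : A} (h : (vtx a : Pt Γ) = vtx b) : a = b := by
  by_contra hne
  have h1 := congrArg (fun x : Pt Γ => x.f a) h
  simp only [vtx_self, vtx_ne hne] at h1
  norm_num at h1

theorem vtx_on {a c d : A} : On (vtx a : Pt Γ).f c d ↔ a = c ∨ a = d := by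
  constructor
  · intro h
    by_contra hcon
    push Not at hcon
    have := h a hcon.1 hcon.2
    rw [vtx_self] at this
    norm_num at this
  · rintro (rfl | rfl) e h1 h2
    · exact vtx_ne h1
    · exact vtx_ne h2

theorem Pt.sum {x : Pt Γ} {a b : A} (hab : a ≠ b) (h : On x.f a b) : x.f a + x.f b = 1 := by
  rcases x.ex with ⟨c, h1, h2⟩ | ⟨c, d, hcd, h1, h2⟩
  · by_cases hc : c = a
    · subst hc
      rw [h1, h2 b (Ne.symm hab), add_zero]
    · by_cases hc' : c = b
      · subst hc'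
        rw [h1, h2 a hab, zero_add]
      · have := h c hc hc'
        rw [h1] at this
        norm_num at this
  · by_cases hc : c = a
    · subst hc
      by_cases hd : d = b
      · subst hd
        exact h2
      · have h3 : x.f d = 0 := h d hcd.ne' hd
        rw [h3, add_zero] at h2
        rw [h2, h1 b (Ne.symm hab) (Ne.symm hd), add_zero]
    · by_cases hc' : c = b
      · subst hc'
        by_cases hd : d = a
        · subst hd
          rw [add_comm]
          exact h2
        · have h3 : x.f d = 0 := h d hd hcd.ne'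
          rw [h3, add_zero] at h2
          rw [h2, h1 a hab (Ne.symm hd), zero_add]
      · have h3 : x.f c = 0 := h c hc hc'
        rw [h3, zero_add] at h2
        by_cases hd : d = a
        · subst hd
          rw [h2, h1 b (Ne.symm hc') (Ne.symm hab), add_zero]
        · by_cases hd' : d = b
          · subst hd'
            rw [h2, h1 a (Ne.symm hc) hab, zero_add]
          · have := h d hd hd'
            rw [h2] at this
            norm_num at this

theorem Pt.le_one {x : Pt Γ} {a b : A} (hab : a ≠ b) (h : On x.f a b) : x.f a ≤ 1 := by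
  have := x.sum hab h
  linarith [x.nonneg b]

theorem Pt.eq_vtx_of {x : Pt Γ} {a b : A} (hab : a ≠ b) (h : On x.f a b) (h0 : x.f b = 0) :
    x = vtx a := by
  have h1 := x.sum hab h
  refine eq_vtx (by linarith) fun c hc => ?_
  by_cases hcb : c = b
  · rw [hcb, h0]
  · exact h c hc hcb

/-- Two edges containing a point which is not a vertex are equal. -/
theorem Pt.edge_unique {x : Pt Γ} {a b c d : A} (h : On x.f c d) (ha : x.f a ≠ 0)
    (hb : x.f b ≠ 0) (hab : a ≠ b) : (a = c ∧ b = d) ∨ (a = d ∧ b = c) := by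
  have h1 : a = c ∨ a = d := by
    by_contra hcon
    push Not at hcon
    exact ha (h a hcon.1 hcon.2)
  have h2 : b = c ∨ b = d := by
    by_contra hcon
    push Not at hcon
    exact hb (h b hcon.1 hcon.2)
  rcases h1 with rfl | rfl <;> rcases h2 with rfl | rfl
  · exact absurd rfl hab
  · exact Or.inl ⟨rfl, rfl⟩
  · exact Or.inr ⟨rfl, rfl⟩
  · exact absurd rfl hab

/-- Each point is a vertex or an interior point of an edge. -/
theorem Pt.cases (x : Pt Γ) : (∃ a, x = vtx a) ∨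
    ∃ a b, Γ.G.Adj a b ∧ On x.f a b ∧ 0 < x.f a ∧ 0 < x.f b := by
  rcases x.ex with ⟨a, h1, h2⟩ | ⟨a, b, hab, h1, h2⟩
  · exact Or.inl ⟨a, eq_vtx h1 h2⟩
  · by_cases ha : x.f a = 0
    · exact Or.inl ⟨b, x.eq_vtx_of hab.ne' h1.symm ha⟩
    · by_cases hb : x.f b = 0
      · exact Or.inl ⟨a, x.eq_vtx_of hab.ne h1 hb⟩
      · exact Or.inr ⟨a, b, hab, h1, lt_of_le_of_ne (x.nonneg a) (Ne.symm ha),
          lt_of_le_of_ne (x.nonneg b) (Ne.symm hb)⟩

theorem Pt.eq_of_on {x y : Pt Γ} {a b : A} (hab : a ≠ b) (hx : On x.f a b) (hy : On y.f a b)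
    (h : x.f b = y.f b) : x = y := by
  have h1 := x.sum hab hx
  have h2 := y.sum hab hy
  refine Pt.ext fun c => ?_
  by_cases hc : c = a
  · rw [hc]
    linarith
  · by_cases hc' : c = b
    · rw [hc', h]
    · rw [hx c hc hc', hy c hc hc']

open Classical in
/-- The point of an edge with given coordinate. -/
noncomputable def seg {a b : A} (h : Γ.G.Adj a b) (u : ℝ) (h0 : 0 ≤ u) (h1 : u ≤ 1) : Pt Γ where
  f c := if c = a then 1 - u else if c = b then u else 0
  nonneg c := by split_ifs <;> linarith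
  ex := Or.inr ⟨a, b, h, fun c h2 h3 => by simp only [if_neg h2, if_neg h3], by
    simp only [if_true, if_neg h.ne']
    ring⟩

theorem seg_a {a b : A} (h : Γ.G.Adj a b) (u : ℝ) (h0 : 0 ≤ u) (h1 : u ≤ 1) :
    (seg h u h0 h1).f a = 1 - u := if_pos rfl

open Classical in
theorem seg_b {a b : A} (h : Γ.G.Adj a b) (u : ℝ) (h0 : 0 ≤ u) (h1 : u ≤ 1) :
    (seg h u h0 h1).f b = u := by
  change (if b = a then 1 - u else if b = b then u else 0) = u
  rw [if_neg h.ne', if_pos rfl]

open Classical in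
theorem seg_on {a b : A} (h : Γ.G.Adj a b) (u : ℝ) (h0 : 0 ≤ u) (h1 : u ≤ 1) :
    On (seg h u h0 h1).f a b := fun c h2 h3 => by
  change (if c = a then 1 - u else if c = b then u else 0) = 0
  rw [if_neg h2, if_neg h3]

/-- `x` and `y` lie in a common closed edge and have distance `s` in it. -/
def Loc (x y : Pt Γ) (s : ℝ) : Prop :=
  (x = y ∧ s = 0) ∨ ∃ a b, Γ.G.Adj a b ∧ On x.f a b ∧ On y.f a b ∧ s = Γ.w a b * |x.f a - y.f a|

theorem Loc.symm {x y : Pt Γ} {s : ℝ} (h : Loc x y s) : Loc y x s := by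
  rcases h with ⟨rfl, rfl⟩ | ⟨a, b, h1, h2, h3, h4⟩
  · exact Or.inl ⟨rfl, rfl⟩
  · exact Or.inr ⟨a, b, h1, h3, h2, by rw [abs_sub_comm]; exact h4⟩

theorem Loc.nonneg {x y : Pt Γ} {s : ℝ} (h : Loc x y s) : 0 ≤ s := by
  rcases h with ⟨rfl, rfl⟩ | ⟨a, b, h1, h2, h3, rfl⟩
  · exact le_rfl
  · exact mul_nonneg (Γ.pos h1).le (abs_nonneg _)

theorem Loc.refl (x : Pt Γ) : Loc x x 0 := Or.inl ⟨rfl, rfl⟩

theorem Loc.edge {a b : A} (h : Γ.G.Adj a b) : Loc (vtx a : Pt Γ) (vtx b) (Γ.w a b) := by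
  refine Or.inr ⟨a, b, h, vtx_on.2 (Or.inl rfl), vtx_on.2 (Or.inr rfl), ?_⟩
  rw [vtx_self, vtx_ne h.ne]
  simp

/-- Chains of points with consecutive ones in common closed edges, with their length. -/
inductive Ch : Pt Γ → Pt Γ → ℝ → Prop
  | nil (x : Pt Γ) : Ch x x 0
  | cons {x y z : Pt Γ} {s t : ℝ} : Loc x y s → Ch y z t → Ch x z (s + t)

theorem Ch.single {x y : Pt Γ} {s : ℝ} (h : Loc x y s) : Ch x y s := by
  have := Ch.cons h (Ch.nil y)
  rwa [add_zero] at this

theorem Ch.nonneg {x y : Pt Γ} {s : ℝ} (h : Ch x y s) : 0 ≤ s := by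
  induction h with
  | nil x => exact le_rfl
  | cons h1 _ ih => linarith [h1.nonneg]

theorem Ch.append {x y z : Pt Γ} {s t : ℝ} (h : Ch x y s) (h' : Ch y z t) : Ch x z (s + t) := by
  induction h with
  | nil x => rwa [zero_add]
  | cons h1 _ ih =>
    rw [add_assoc]
    exact Ch.cons h1 (ih h')

theorem Ch.symm {x y : Pt Γ} {s : ℝ} (h : Ch x y s) : Ch y x s := by
  induction h with
  | nil x => exact Ch.nil x
  | cons h1 _ ih =>
    rw [add_comm]
    exact ih.append (Ch.single h1.symm)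

/-- The truncated distance of two points of a metric graph. -/
noncomputable def Th (x y : Pt Γ) : ℝ := sInf ({t | Ch x y t} ∪ {π})

theorem th_bdd (x y : Pt Γ) : BddBelow ({t | Ch x y t} ∪ {π}) := by
  refine ⟨0, ?_⟩
  rintro t (h | h)
  · exact Ch.nonneg h
  · rw [Set.mem_singleton_iff] at h
    rw [h]
    exact pi_pos.le

theorem Th.le_pi (x y : Pt Γ) : Th x y ≤ π := csInf_le (th_bdd x y) (Or.inr rfl)

theorem Th.nonneg (x y : Pt Γ) : 0 ≤ Th x y := by
  refine le_csInf ⟨π, Or.inr rfl⟩ ?_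
  rintro t (h | h)
  · exact Ch.nonneg h
  · rw [Set.mem_singleton_iff] at h
    rw [h]
    exact pi_pos.le

theorem Ch.th_le {x y : Pt Γ} {t : ℝ} (h : Ch x y t) : Th x y ≤ t :=
  csInf_le (th_bdd x y) (Or.inl h)

theorem Th.exists_lt {x y : Pt Γ} {u : ℝ} (h : Th x y < u) (hu : u ≤ π) : ∃ t < u, Ch x y t := by
  obtain ⟨t, ht, h1⟩ := exists_lt_of_csInf_lt (s := {t | Ch x y t} ∪ {π}) ⟨π, Or.inr rfl⟩ h
  rcases ht with ht | ht
  · exact ⟨t, h1, ht⟩
  · rw [Set.mem_singleton_iff] at ht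
    linarith

theorem Th.self (x : Pt Γ) : Th x x = 0 := le_antisymm (Ch.nil x).th_le (Th.nonneg x x)

theorem Th.symm (x y : Pt Γ) : Th x y = Th y x := by
  have : {t | Ch x y t} = {t | Ch y x t} := Set.ext fun t => ⟨Ch.symm, Ch.symm⟩
  rw [Th, Th, this]

theorem Th.tri (x y z : Pt Γ) : Th x z ≤ Th x y + Th y z := by
  by_cases h1 : Th x y < π
  · by_cases h2 : Th y z < π
    · refine le_of_forall_pos_le_add fun ε hε => ?_
      obtain ⟨s, hs, h3⟩ := Th.exists_lt (u := min π (Th x y + ε / 2))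
        (lt_min h1 (by linarith)) (min_le_left _ _)
      obtain ⟨t, ht, h4⟩ := Th.exists_lt (u := min π (Th y z + ε / 2))
        (lt_min h2 (by linarith)) (min_le_left _ _)
      have h5 := (h3.append h4).th_le
      have h6 := lt_of_lt_of_le hs (min_le_right _ _)
      have h7 := lt_of_lt_of_le ht (min_le_right _ _)
      linarith
    · have := Th.le_pi x z
      linarith [Th.nonneg x y]
  · have := Th.le_pi x z
    linarith [Th.nonneg y z]

/-! ## Chains from a vertex -/

/-- `x` can be reached from the vertex `a` along a walk and a piece of an edge, of length at most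
`t`. -/
def Rch (a : A) (x : Pt Γ) (t : ℝ) : Prop :=
  (∃ c, x = vtx c ∧ ∃ p : Γ.G.Walk a c, wt Γ.w p ≤ t) ∨
    ∃ c d, Γ.G.Adj c d ∧ On x.f c d ∧ ∃ p : Γ.G.Walk a c, wt Γ.w p + Γ.w c d * x.f d ≤ t

theorem Rch.vtx {a b : A} {t : ℝ} (h : Rch a (vtx b : Pt Γ) t) :
    ∃ p : Γ.G.Walk a b, wt Γ.w p ≤ t := by
  rcases h with ⟨c, h1, p, hp⟩ | ⟨c, d, hcd, h1, p, hp⟩
  · obtain rfl := vtx_inj h1
    exact ⟨p, hp⟩
  · rcases vtx_on.1 h1 with rfl | rfl
    · refine ⟨p, ?_⟩
      rwa [vtx_ne hcd.ne', mul_zero, add_zero] at hp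
    · refine ⟨p.concat hcd, ?_⟩
      rw [wt_concat]
      rwa [vtx_self, mul_one] at hp

theorem Rch.loc {a : A} {x y : Pt Γ} {s t : ℝ} (h : Rch a x t) (hl : Loc x y s) :
    Rch a y (t + s) := by
  rcases hl with ⟨rfl, rfl⟩ | ⟨c', d', hcd', h2, h3, rfl⟩
  · rwa [add_zero]
  · -- the case of a vertex
    have key : ∀ c, x = GT.vtx c → (∃ p : Γ.G.Walk a c, wt Γ.w p ≤ t) →
        Rch a y (t + Γ.w c' d' * |x.f c' - y.f c'|) := by
      rintro c rfl ⟨p, hp⟩
      have hs := y.sum hcd'.ne h3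
      rcases vtx_on.1 h2 with rfl | rfl
      · refine Or.inr ⟨c, d', hcd', h3, p, ?_⟩
        rw [vtx_self, abs_of_nonneg (by linarith [y.nonneg d']), show 1 - y.f c = y.f d' by linarith]
        linarith
      · refine Or.inr ⟨c, c', hcd'.symm, h3.symm, p, ?_⟩
        rw [vtx_ne hcd'.ne, zero_sub, abs_neg, abs_of_nonneg (y.nonneg _), Γ.symm c c']
        linarith
    rcases h with ⟨c, h1, p, hp⟩ | ⟨c, d, hcd, h1, p, hp⟩
    · exact key c h1 ⟨p, hp⟩
    · by_cases hd : x.f d = 0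
      · refine key c (x.eq_vtx_of hcd.ne h1 hd) ⟨p, ?_⟩
        rwa [hd, mul_zero, add_zero] at hp
      · by_cases hc : x.f c = 0
        · have hx := x.eq_vtx_of hcd.ne' h1.symm hc
          refine key d hx ⟨p.concat hcd, ?_⟩
          rw [wt_concat]
          rwa [hx, vtx_self, mul_one] at hp
        · have hpos := (Γ.pos hcd).le
          have hsx := x.sum hcd.ne h1
          rcases Pt.edge_unique h2 hc hd hcd.ne with ⟨rfl, rfl⟩ | ⟨rfl, rfl⟩
          · refine Or.inr ⟨c, d, hcd, h3, p, ?_⟩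
            have hsy := y.sum hcd.ne h3
            have h4 : y.f d - x.f d ≤ |x.f c - y.f c| := by
              rw [show y.f d - x.f d = x.f c - y.f c by linarith]
              exact le_abs_self _
            nlinarith [mul_le_mul_of_nonneg_left h4 hpos]
          · refine Or.inr ⟨c, d, hcd, h3.symm, p, ?_⟩
            have h4 : y.f d - x.f d ≤ |x.f d - y.f d| := by
              rw [abs_sub_comm]
              exact le_abs_self _
            rw [Γ.symm d c]
            nlinarith [mul_le_mul_of_nonneg_left h4 hpos]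

theorem Rch.ch {a : A} {x y : Pt Γ} {s t : ℝ} (h : Ch x y s) (hx : Rch a x t) :
    Rch a y (t + s) := by
  induction h generalizing t with
  | nil x => rwa [add_zero]
  | cons h1 _ ih =>
    rw [← add_assoc]
    exact ih (hx.loc h1)

/-- Each chain between vertices can be replaced by a path. -/
theorem Ch.path {a b : A} {t : ℝ} (h : Ch (vtx a : Pt Γ) (vtx b) t) :
    ∃ p : Γ.G.Walk a b, p.IsPath ∧ wt Γ.w p ≤ t := by
  have h1 : Rch a (vtx a : Pt Γ) 0 := Or.inl ⟨a, rfl, SimpleGraph.Walk.nil, by simp⟩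
  obtain ⟨p, hp⟩ := (h1.ch h).vtx
  obtain ⟨q, hq, h2, -⟩ := exists_path Γ.nonneg p
  exact ⟨q, hq, by linarith⟩

theorem ch_walk {a b : A} (p : Γ.G.Walk a b) : Ch (vtx a : Pt Γ) (vtx b) (wt Γ.w p) := by
  induction p with
  | nil => exact Ch.nil _
  | cons h p ih => exact Ch.cons (Loc.edge h) ih

theorem th_le_walk {a b : A} (p : Γ.G.Walk a b) : Th (vtx a : Pt Γ) (vtx b) ≤ wt Γ.w p :=
  (ch_walk p).th_le

/-- The distance of two vertices is the weight of a path if it is less than `π`. -/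
theorem exists_geod {a b : A} (h : Th (vtx a : Pt Γ) (vtx b) < π) :
    ∃ p : Γ.G.Walk a b, p.IsPath ∧ wt Γ.w p = Th (vtx a : Pt Γ) (vtx b) := by
  obtain ⟨t, ht, h1⟩ := Th.exists_lt h le_rfl
  obtain ⟨p, hp, h2⟩ := h1.path
  refine ⟨p, hp, le_antisymm ?_ (th_le_walk p)⟩
  refine le_csInf ⟨π, Or.inr rfl⟩ ?_
  rintro s (hs | hs)
  · obtain ⟨q, hq, h3⟩ := Ch.path hs
    by_cases hpq : p = q
    · rw [hpq]
      exact h3
    · have := Γ.circ.two_paths hp hq hpq
      linarith
  · rw [Set.mem_singleton_iff] at hs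
    rw [hs]
    linarith

/-- The distance of adjacent vertices. -/
theorem th_adj {a b : A} (h : Γ.G.Adj a b) : Th (vtx a : Pt Γ) (vtx b) = Γ.w a b := by
  have h1 : Th (vtx a : Pt Γ) (vtx b) ≤ Γ.w a b := (Ch.single (Loc.edge h)).th_le
  have h2 := Γ.lt_pi a b h
  obtain ⟨p, hp, h3⟩ := exists_geod (lt_of_le_of_lt h1 h2)
  rw [← h3]
  set q : Γ.G.Walk a b := SimpleGraph.Walk.cons h SimpleGraph.Walk.nil with hq
  have hq' : q.IsPath := by
    rw [hq, SimpleGraph.Walk.cons_isPath_iff]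
    simp [h.ne]
  have hw : wt Γ.w q = Γ.w a b := by
    rw [hq]
    simp
  by_cases hpq : p = q
  · rw [hpq, hw]
  · have := Γ.circ.two_paths hp hq' hpq
    rw [hw] at this
    linarith

/-- The distance of two points of a closed edge. -/
theorem th_edge {a b : A} (h : Γ.G.Adj a b) {x y : Pt Γ} (hx : On x.f a b) (hy : On y.f a b) :
    Th x y = Γ.w a b * |x.f a - y.f a| := by
  have hpos := (Γ.pos h).le
  have key : ∀ x y : Pt Γ, On x.f a b → On y.f a b → y.f a ≤ x.f a →
      Γ.w a b * (x.f a - y.f a) ≤ Th x y := by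
    intro x y hx hy hxy
    have h1 : Th (vtx a) x ≤ Γ.w a b * (1 - x.f a) := by
      refine (Ch.single (Or.inr ⟨a, b, h, vtx_on.2 (Or.inl rfl), hx, ?_⟩)).th_le
      rw [vtx_self, abs_of_nonneg (by linarith [x.le_one h.ne hx])]
    have h2 : Th y (vtx b) ≤ Γ.w a b * y.f a := by
      refine (Ch.single (Or.inr ⟨a, b, h, hy, vtx_on.2 (Or.inr rfl), ?_⟩)).th_le
      rw [vtx_ne h.ne, sub_zero, abs_of_nonneg (y.nonneg a)]
    have h3 := Th.tri (vtx a) x (vtx b)
    have h4 := Th.tri x y (vtx b)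
    rw [th_adj h] at h3
    nlinarith
  refine le_antisymm (Ch.single (Or.inr ⟨a, b, h, hx, hy, rfl⟩)).th_le ?_
  rcases le_total (y.f a) (x.f a) with hxy | hxy
  · rw [abs_of_nonneg (by linarith)]
    exact key x y hx hy hxy
  · rw [abs_sub_comm, abs_of_nonneg (by linarith), Th.symm]
    exact key y x hy hx hxy

/-- Intermediate points of a segment. -/
theorem Loc.inter {x y : Pt Γ} {s t : ℝ} (h : Loc x y t) (h0 : 0 ≤ s) (h1 : s ≤ t) :
    ∃ m, Loc x m s ∧ Loc m y (t - s) := by
  rcases h with ⟨rfl, rfl⟩ | ⟨a, b, hab, hx, hy, rfl⟩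
  · obtain rfl : s = 0 := le_antisymm h1 h0
    exact ⟨x, Loc.refl x, by rw [sub_zero]; exact Loc.refl x⟩
  · by_cases ht : Γ.w a b * |x.f a - y.f a| = 0
    · obtain rfl : s = 0 := by linarith
      exact ⟨x, Loc.refl x, by rw [sub_zero]; exact Or.inr ⟨a, b, hab, hx, hy, rfl⟩⟩
    · set T := Γ.w a b * |x.f a - y.f a| with hT
      have hTp : 0 < T := lt_of_le_of_ne (by linarith) (Ne.symm ht)
      have hu0 : 0 ≤ s / T := by positivity
      have hu1 : s / T ≤ 1 := (div_le_one hTp).2 h1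
      have hsx := x.sum hab.ne hx
      have hsy := y.sum hab.ne hy
      set m : Pt Γ := ⟨fun c => (1 - s / T) * x.f c + s / T * y.f c,
        fun c => add_nonneg (mul_nonneg (sub_nonneg.2 hu1) (x.nonneg c))
          (mul_nonneg hu0 (y.nonneg c)),
        Or.inr ⟨a, b, hab, fun c h1 h2 => by simp only [hx c h1 h2, hy c h1 h2]; ring, by
          linear_combination (1 - s / T) * hsx + s / T * hsy⟩⟩ with hm
      have hmon : On m.f a b := fun c h1 h2 => by
        change (1 - s / T) * x.f c + s / T * y.f c = 0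
        rw [hx c h1 h2, hy c h1 h2]
        ring
      refine ⟨m, Or.inr ⟨a, b, hab, hx, hmon, ?_⟩, Or.inr ⟨a, b, hab, hmon, hy, ?_⟩⟩
      · rw [show x.f a - m.f a = s / T * (x.f a - y.f a) by
          change x.f a - ((1 - s / T) * x.f a + s / T * y.f a) = _
          ring, abs_mul, abs_of_nonneg hu0]
        calc s = s / T * T := by field_simp
          _ = _ := by rw [hT]; ring
      · rw [show m.f a - y.f a = (1 - s / T) * (x.f a - y.f a) by
          change (1 - s / T) * x.f a + s / T * y.f a - y.f a = _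
          ring, abs_mul, abs_of_nonneg (by linarith)]
        calc T - s = (1 - s / T) * T := by field_simp
          _ = _ := by rw [hT]; ring

theorem Ch.inter {x y : Pt Γ} {s t : ℝ} (h : Ch x y t) (h0 : 0 ≤ s) (h1 : s ≤ t) :
    ∃ m, Ch x m s ∧ Ch m y (t - s) := by
  induction h generalizing s with
  | nil x =>
    obtain rfl : s = 0 := le_antisymm h1 h0
    exact ⟨x, Ch.nil x, by rw [sub_zero]; exact Ch.nil x⟩
  | @cons x y z s' t' hl hc ih =>
    by_cases hs : s ≤ s'
    · obtain ⟨m, h2, h3⟩ := hl.inter h0 hs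
      refine ⟨m, Ch.single h2, ?_⟩
      rw [show s' + t' - s = (s' - s) + t' by ring]
      exact Ch.cons h3 hc
    · push Not at hs
      obtain ⟨m, h2, h3⟩ := ih (s := s - s') (by linarith) (by linarith)
      refine ⟨m, ?_, ?_⟩
      · rw [show s = s' + (s - s') by ring]
        exact Ch.cons hl h2
      · rw [show s' + t' - s = t' - (s - s') by ring]
        exact h3

end Pool.Agent.Helper26.GT
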