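import Pool.Agent.Helper63.GT.Chart
import Pool.Agent.Helper26.GT.Atlas

/-!
# The realization is complete and locally CAT(0)
-/

set_option autoImplicit false

namespace Pool.Agent.Helper26.GT

open Real Pool.Agent.Helper63.GT Pool.Agent.Helper37.CH

variable {V : Type} (D : PE V)

theorem rz_atlas : Atlas (Rz D) (fun v => Cn D v) (fun v p => 1 / 6 ≤ p.f v) (fun v => cht v) D.ρ where
  pos := D.ρ_pos
  cov x := by
    obtain ⟨v, hv⟩ := x.exists_third
    refine ⟨v, fun y hy => ?_⟩
    rw [Pool.Agent.Helper63.GT.dist_def] at hy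
    have h1 := Pool.Agent.Helper63.GT.coord_lip (show 1 / 6 ≤ x.f v by linarith) hy
    have h2 := mul_lt_mul_of_pos_left hy D.K_pos
    rw [D.Kρ] at h2
    have h3 := (abs_le.1 h1).2
    linarith
  iso v x y hx hxy := chart_eq hx hxy
  surj v x z hx hz := by
    obtain ⟨y, -, h2, h3⟩ := chart_surj hx hz
    refine ⟨y, h2, ?_⟩
    rw [← h2]
    exact (chart_eq hx (lt_of_le_of_lt h3 hz)).symm

theorem rz_locCat : LocCat (Rz D) (D.ρ / 2) :=
  (rz_atlas D).locCat fun _ f g t h0 h1 => cone_stewart f g t h0 h1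

theorem rz_complete : CompleteSpace (Rz D) :=
  (rz_atlas D).complete fun v => lk_complete D.met D.link D.sh v

end Pool.Agent.Helper26.GT
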