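import Pool.Agent.Helper26.GT.Pt
import Pool.Agent.Helper50.GT.Ins

/-!
# Subdivision of metric graphs
-/

set_option autoImplicit false

namespace Pool.Agent.Helper26.GT

open Pool.Agent.Helper50.GT Real

/-- `Γ'` is a subdivision of `Γ`. -/
structure Sub {A A' : Type} (Γ : WG A) (Γ' : WG A') (q : Pt Γ' → Pt Γ) : Prop where
  surj : ∀ x, ∃ x', q x' = x
  loc : ∀ x y t, Loc x y t → Loc (q x) (q y) t
  ch : ∀ x y t, Loc (q x) (q y) t → Ch x y t
  vt : ∀ a, ∃ a', q (vtx a') = vtx a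

section

variable {A A' : Type} {Γ : WG A} {Γ' : WG A'} {q : Pt Γ' → Pt Γ}

theorem Sub.map (h : Sub Γ Γ' q) {x y : Pt Γ'} {t : ℝ} (hc : Ch x y t) : Ch (q x) (q y) t := by
  induction hc with
  | nil x => exact Ch.nil _
  | cons h1 _ ih => exact Ch.cons (h.loc _ _ _ h1) ih

theorem Sub.lift (h : Sub Γ Γ' q) {u v : Pt Γ} {t : ℝ} (hc : Ch u v t) :
    ∀ x y : Pt Γ', q x = u → q y = v → Ch x y t := by
  induction hc with
  | nil u =>
    intro x y hx hy
    exact h.ch _ _ _ (by rw [hx, hy]; exact Loc.refl u)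
  | @cons u m v s t h1 _ ih =>
    intro x y hx hy
    obtain ⟨m', rfl⟩ := h.surj m
    have h2 := h.ch x m' s (by rw [hx]; exact h1)
    exact h2.append (ih m' y rfl hy)

theorem Sub.th (h : Sub Γ Γ' q) (x y : Pt Γ') : Th (q x) (q y) = Th x y := by
  have : {t | Ch (q x) (q y) t} = {t | Ch x y t} :=
    Set.ext fun t => ⟨fun h' => h.lift h' x y rfl rfl, h.map⟩
  rw [Th, Th, this]

theorem Sub.id (Γ : WG A) : Sub Γ Γ (fun x => x) :=
  ⟨fun x => ⟨x, rfl⟩, fun _ _ _ h => h, fun _ _ _ h => Ch.single h, fun a => ⟨a, rfl⟩⟩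

theorem Sub.comp {A'' : Type} {Γ'' : WG A''} {ρ : Pt Γ'' → Pt Γ'} (h : Sub Γ Γ' q)
    (h' : Sub Γ' Γ'' ρ) : Sub Γ Γ'' (fun x => q (ρ x)) := by
  refine ⟨fun x => ?_, fun x y t hl => h.loc _ _ _ (h'.loc _ _ _ hl), fun x y t hl => ?_,
    fun a => ?_⟩
  · obtain ⟨x', rfl⟩ := h.surj x
    obtain ⟨x'', rfl⟩ := h'.surj x'
    exact ⟨x'', rfl⟩
  · exact h'.lift (h.ch _ _ _ hl) x y rfl rfl
  · obtain ⟨a', h1⟩ := h.vt a
    obtain ⟨a'', h2⟩ := h'.vt a'
    exact ⟨a'', by rw [h2, h1]⟩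

end

section

variable {A : Type} (Γ : WG A) {a b : A} (hab : Γ.G.Adj a b) {s : ℝ} (h0 : 0 < s)
  (h1 : s < Γ.w a b)

open Classical in
theorem insw_lt {c d : Option A} (h : (ins Γ.G a b).Adj c d) (h0 : 0 < s) (h1 : s < Γ.w a b)
    (hab : Γ.G.Adj a b) : insw Γ.w a b s c d < π := by
  have h2 := Γ.lt_pi a b hab
  rcases c with _ | c <;> rcases d with _ | d
  · exact h.elim
  · change (if d = a then s else Γ.w a b - s) < π
    split_ifs <;> linarith
  · change (if c = a then s else Γ.w a b - s) < π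
    split_ifs <;> linarith
  · exact Γ.lt_pi c d h.1

/-- The graph with one more vertex. -/
noncomputable def Ins : WG (Option A) where
  G := ins Γ.G a b
  w := insw Γ.w a b s
  circ := ins_circ Γ.circ hab h0 h1
  lt_pi _ _ h := insw_lt Γ h h0 h1 hab

open Classical in
/-- The coordinates of the new vertex. -/
noncomputable def nu (a b : A) (s : ℝ) (c : A) : ℝ :=
  if c = a then (Γ.w a b - s) / Γ.w a b else if c = b then s / Γ.w a b else 0

theorem nu_a : nu Γ a b s a = (Γ.w a b - s) / Γ.w a b := if_pos rfl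

variable {Γ}

include hab in
theorem nu_b : nu Γ a b s b = s / Γ.w a b := by
  rw [nu, if_neg hab.ne', if_pos rfl]

theorem nu_c {c : A} (h : c ≠ a) (h' : c ≠ b) : nu Γ a b s c = 0 := by
  rw [nu, if_neg h, if_neg h']

/-- The form of the points of the new graph. -/
theorem Ins.cases (x : Pt (Ins Γ hab h0 h1)) :
    (x.f none = 0 ∧ ((∃ c, x = vtx (some c)) ∨ ∃ c d, Γ.G.Adj c d ∧ ¬ (c = a ∧ d = b) ∧
      ¬ (c = b ∧ d = a) ∧ On x.f (some c) (some d) ∧ 0 < x.f (some c) ∧ 0 < x.f (some d))) ∨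
    (0 < x.f none ∧ On x.f (some a) none) ∨ (0 < x.f none ∧ On x.f (some b) none) := by
  rcases x.cases with ⟨c, rfl⟩ | ⟨c, d, hcd, hon, hc, hd⟩
  · rcases c with _ | c
    · exact Or.inr (Or.inl ⟨by rw [vtx_self]; norm_num, vtx_on.2 (Or.inr rfl)⟩)
    · exact Or.inl ⟨vtx_ne (by simp), Or.inl ⟨c, rfl⟩⟩
  · rcases c with _ | c <;> rcases d with _ | d
    · exact hcd.elim
    · rcases hcd with rfl | rfl
      · exact Or.inr (Or.inl ⟨hc, hon.symm⟩)
      · exact Or.inr (Or.inr ⟨hc, hon.symm⟩)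
    · rcases hcd with rfl | rfl
      · exact Or.inr (Or.inl ⟨hd, hon⟩)
      · exact Or.inr (Or.inr ⟨hd, hon⟩)
    · exact Or.inl ⟨hon none (by simp) (by simp), Or.inr ⟨c, d, hcd.1, hcd.2.1, hcd.2.2, hon, hc, hd⟩⟩

/-- The map to the points of the old graph. -/
noncomputable def pj (x : Pt (Ins Γ hab h0 h1)) : Pt Γ where
  f c := x.f (some c) + x.f none * nu Γ a b s c
  nonneg c := by
    have hw := Γ.pos hab
    have : 0 ≤ nu Γ a b s c := by
      unfold nu
      split_ifs
      · exact div_nonneg (by linarith) hw.le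
      · exact div_nonneg h0.le hw.le
      · exact le_rfl
    exact add_nonneg (x.nonneg _) (mul_nonneg (x.nonneg _) this)
  ex := by
    have hw := Γ.pos hab
    have hnu : nu Γ a b s a + nu Γ a b s b = 1 := by
      rw [nu_a, nu_b hab]
      field_simp
      ring
    rcases Ins.cases hab h0 h1 x with ⟨hn, ⟨c, rfl⟩ | ⟨c, d, hcd, -, -, hon, hc, hd⟩⟩ |
      ⟨hn, hon⟩ | ⟨hn, hon⟩
    · refine Or.inl ⟨c, ?_, fun e he => ?_⟩
      · rw [hn, vtx_self]
        ring
      · rw [hn, vtx_ne (by simpa using he)]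
        ring
    · refine Or.inr ⟨c, d, hcd, fun e h2 h3 => ?_, ?_⟩
      · change x.f (some e) + x.f none * nu Γ a b s e = 0
        rw [hn, hon (some e) (by simpa using h2) (by simpa using h3)]
        ring
      · rw [hn]
        have := x.sum (by simpa using hcd.ne) hon
        linarith
    · have hs := x.sum (by simp) hon
      refine Or.inr ⟨a, b, hab, fun e h2 h3 => ?_, ?_⟩
      · change x.f (some e) + x.f none * nu Γ a b s e = 0
        rw [hon (some e) (by simpa using h2) (by simp), nu_c h2 h3]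
        ring
      · rw [hon (some b) (by simpa using hab.ne') (by simp)]
        linear_combination x.f none * hnu + hs
    · have hs := x.sum (by simp) hon
      refine Or.inr ⟨a, b, hab, fun e h2 h3 => ?_, ?_⟩
      · change x.f (some e) + x.f none * nu Γ a b s e = 0
        rw [hon (some e) (by simpa using h3) (by simp), nu_c h2 h3]
        ring
      · rw [hon (some a) (by simpa using hab.ne) (by simp)]
        linear_combination x.f none * hnu + hs

theorem pj_f (x : Pt (Ins Γ hab h0 h1)) (c : A) :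
    (pj hab h0 h1 x).f c = x.f (some c) + x.f none * nu Γ a b s c := rfl

theorem pj_vtx (c : A) : pj hab h0 h1 (vtx (some c)) = vtx c := by
  refine Pt.ext fun e => ?_
  rw [pj_f, vtx_ne (c := none) (by simp), zero_mul, add_zero]
  by_cases he : e = c
  · rw [he, vtx_self, vtx_self]
  · rw [vtx_ne (by simpa using he), vtx_ne he]

/-- The position of a point of one of the new edges. -/
theorem pj_on_a {x : Pt (Ins Γ hab h0 h1)} (h : On x.f (some a) none) :
    On (pj hab h0 h1 x).f a b ∧ Γ.w a b * (pj hab h0 h1 x).f b = s * x.f none := by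
  have hw := Γ.pos hab
  refine ⟨fun e h2 h3 => ?_, ?_⟩
  · rw [pj_f, h (some e) (by simpa using h2) (by simp), nu_c h2 h3]
    ring
  · rw [pj_f, h (some b) (by simpa using hab.ne') (by simp), nu_b hab]
    field_simp
    ring

theorem pj_on_b {x : Pt (Ins Γ hab h0 h1)} (h : On x.f (some b) none) :
    On (pj hab h0 h1 x).f a b ∧
      Γ.w a b * (pj hab h0 h1 x).f a = (Γ.w a b - s) * x.f none := by
  have hw := Γ.pos hab
  refine ⟨fun e h2 h3 => ?_, ?_⟩
  · rw [pj_f, h (some e) (by simpa using h3) (by simp), nu_c h2 h3]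
    ring
  · rw [pj_f, h (some a) (by simpa using hab.ne) (by simp), nu_a]
    field_simp
    ring

theorem adj_a : (Ins Γ hab h0 h1).G.Adj (some a) none := Or.inl rfl

theorem adj_b : (Ins Γ hab h0 h1).G.Adj (some b) none := Or.inr rfl

theorem w_a : (Ins Γ hab h0 h1).w (some a) none = s := if_pos rfl

theorem w_b : (Ins Γ hab h0 h1).w (some b) none = Γ.w a b - s := if_neg hab.ne'

/-- A point over the edge `a`, `b` lies on one of the two new edges. -/
theorem Ins.over {x : Pt (Ins Γ hab h0 h1)} (h : On (pj hab h0 h1 x).f a b) :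
    On x.f (some a) none ∨ On x.f (some b) none := by
  rcases Ins.cases hab h0 h1 x with ⟨hn, ⟨c, rfl⟩ | ⟨c, d, hcd, h2, h3, hon, hc, hd⟩⟩ |
    ⟨hn, hon⟩ | ⟨hn, hon⟩
  · rw [pj_vtx] at h
    rcases vtx_on.1 h with rfl | rfl
    · exact Or.inl (vtx_on.2 (Or.inl rfl))
    · exact Or.inr (vtx_on.2 (Or.inl rfl))
  · exfalso
    have e1 : (pj hab h0 h1 x).f c ≠ 0 := by
      rw [pj_f, hn, zero_mul, add_zero]
      exact hc.ne'
    have e2 : (pj hab h0 h1 x).f d ≠ 0 := by
      rw [pj_f, hn, zero_mul, add_zero]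
      exact hd.ne'
    rcases Pt.edge_unique h e1 e2 hcd.ne with ⟨rfl, rfl⟩ | ⟨rfl, rfl⟩
    · exact h2 ⟨rfl, rfl⟩
    · exact h3 ⟨rfl, rfl⟩
  · exact Or.inl hon
  · exact Or.inr hon

/-- A point over an edge different from `a`, `b` has coordinate zero at the new vertex. -/
theorem Ins.over' {x : Pt (Ins Γ hab h0 h1)} {c d : A} (h : On (pj hab h0 h1 x).f c d)
    (h2 : ¬ (c = a ∧ d = b)) (h3 : ¬ (c = b ∧ d = a)) : x.f none = 0 := by
  by_contra hn
  have hw := Γ.pos hab
  have hn' : 0 < x.f none := lt_of_le_of_ne (x.nonneg _) (Ne.symm hn)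
  have e1 : (pj hab h0 h1 x).f a ≠ 0 := by
    rw [pj_f, nu_a]
    have : 0 < x.f none * ((Γ.w a b - s) / Γ.w a b) :=
      mul_pos hn' (div_pos (by linarith) hw)
    linarith [x.nonneg (some a)]
  have e2 : (pj hab h0 h1 x).f b ≠ 0 := by
    rw [pj_f, nu_b hab]
    have : 0 < x.f none * (s / Γ.w a b) := mul_pos hn' (div_pos h0 hw)
    linarith [x.nonneg (some b)]
  rcases Pt.edge_unique h e1 e2 hab.ne with ⟨rfl, rfl⟩ | ⟨rfl, rfl⟩
  · exact h2 ⟨rfl, rfl⟩
  · exact h3 ⟨rfl, rfl⟩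

theorem loc_a {x y : Pt (Ins Γ hab h0 h1)} (hx : On x.f (some a) none)
    (hy : On y.f (some a) none) :
    Loc (pj hab h0 h1 x) (pj hab h0 h1 y) (s * |x.f none - y.f none|) := by
  have hw := Γ.pos hab
  obtain ⟨h2, h3⟩ := pj_on_a hab h0 h1 hx
  obtain ⟨h4, h5⟩ := pj_on_a hab h0 h1 hy
  refine Or.inr ⟨b, a, hab.symm, h2.symm, h4.symm, ?_⟩
  have e1 : s * |x.f none - y.f none| = |s * (x.f none - y.f none)| := by
    rw [abs_mul, abs_of_pos h0]
  have e2 : Γ.w b a * |(pj hab h0 h1 x).f b - (pj hab h0 h1 y).f b| =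
      |Γ.w a b * ((pj hab h0 h1 x).f b - (pj hab h0 h1 y).f b)| := by
    rw [abs_mul, abs_of_pos hw, Γ.symm b a]
  rw [e1, e2, mul_sub, mul_sub, h3, h5]

theorem loc_b {x y : Pt (Ins Γ hab h0 h1)} (hx : On x.f (some b) none)
    (hy : On y.f (some b) none) :
    Loc (pj hab h0 h1 x) (pj hab h0 h1 y) ((Γ.w a b - s) * |x.f none - y.f none|) := by
  have hw := Γ.pos hab
  have h6 : 0 < Γ.w a b - s := by linarith
  obtain ⟨h2, h3⟩ := pj_on_b hab h0 h1 hx
  obtain ⟨h4, h5⟩ := pj_on_b hab h0 h1 hy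
  refine Or.inr ⟨a, b, hab, h2, h4, ?_⟩
  have e1 : (Γ.w a b - s) * |x.f none - y.f none| = |(Γ.w a b - s) * (x.f none - y.f none)| := by
    rw [abs_mul, abs_of_pos h6]
  have e2 : Γ.w a b * |(pj hab h0 h1 x).f a - (pj hab h0 h1 y).f a| =
      |Γ.w a b * ((pj hab h0 h1 x).f a - (pj hab h0 h1 y).f a)| := by
    rw [abs_mul, abs_of_pos hw]
  rw [e1, e2, mul_sub, mul_sub, h3, h5]

theorem pj_loc {x y : Pt (Ins Γ hab h0 h1)} {t : ℝ} (h : Loc x y t) :
    Loc (pj hab h0 h1 x) (pj hab h0 h1 y) t := by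
  rcases h with ⟨rfl, rfl⟩ | ⟨c, d, hcd, hx, hy, rfl⟩
  · exact Loc.refl _
  · rcases c with _ | c <;> rcases d with _ | d
    · exact hcd.elim
    · rcases hcd with rfl | rfl
      · have := loc_a hab h0 h1 hx.symm hy.symm
        rwa [WG.symm, w_a]
      · have := loc_b hab h0 h1 hx.symm hy.symm
        rwa [WG.symm, w_b]
    · have sx := x.sum (by simp) hx
      have sy := y.sum (by simp) hy
      have e : |x.f (some c) - y.f (some c)| = |x.f none - y.f none| := by
        rw [← abs_neg]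
        congr 1
        linarith
      rw [e]
      rcases hcd with rfl | rfl
      · rw [w_a]
        exact loc_a hab h0 h1 hx hy
      · rw [w_b]
        exact loc_b hab h0 h1 hx hy
    · have ex : x.f none = 0 := hx none (by simp) (by simp)
      have ey : y.f none = 0 := hy none (by simp) (by simp)
      refine Or.inr ⟨c, d, hcd.1, fun e h2 h3 => ?_, fun e h2 h3 => ?_, ?_⟩
      · rw [pj_f, ex, hx (some e) (by simpa using h2) (by simpa using h3)]
        ring
      · rw [pj_f, ey, hy (some e) (by simpa using h2) (by simpa using h3)]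
        ring
      · rw [pj_f, pj_f, ex, ey, zero_mul, add_zero, add_zero]
        rfl

theorem pj_none {x : Pt (Ins Γ hab h0 h1)} (h : ¬ On (pj hab h0 h1 x).f a b) :
    x.f none = 0 := by
  rcases Ins.cases hab h0 h1 x with ⟨hn, -⟩ | ⟨hn, hon⟩ | ⟨hn, hon⟩
  · exact hn
  · exact absurd (pj_on_a hab h0 h1 hon).1 h
  · exact absurd (pj_on_b hab h0 h1 hon).1 h

theorem ch_ab {x y : Pt (Ins Γ hab h0 h1)} (hx : On x.f (some a) none)
    (hy : On y.f (some b) none) :
    Ch x y (Γ.w a b * |(pj hab h0 h1 x).f a - (pj hab h0 h1 y).f a|) := by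
  obtain ⟨h2, h3⟩ := pj_on_a hab h0 h1 hx
  obtain ⟨h4, h5⟩ := pj_on_b hab h0 h1 hy
  have hw := Γ.pos hab
  have sx := x.sum (by simp) hx
  have sy := y.sum (by simp) hy
  have sx' := (pj hab h0 h1 x).sum hab.ne h2
  have e1 : Γ.w a b * ((pj hab h0 h1 x).f a - (pj hab h0 h1 y).f a) =
      s * x.f (some a) + (Γ.w a b - s) * y.f (some b) := by
    linear_combination Γ.w a b * sx' - h3 - h5 - s * sx - (Γ.w a b - s) * sy
  have e2 : 0 ≤ s * x.f (some a) + (Γ.w a b - s) * y.f (some b) :=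
    add_nonneg (mul_nonneg h0.le (x.nonneg _)) (mul_nonneg (by linarith) (y.nonneg _))
  have e3 : 0 ≤ (pj hab h0 h1 x).f a - (pj hab h0 h1 y).f a := by
    by_contra hcon
    push Not at hcon
    have := mul_neg_of_pos_of_neg hw hcon
    linarith
  rw [abs_of_nonneg e3, e1]
  refine Ch.cons (y := vtx none) (Or.inr ⟨some a, none, adj_a hab h0 h1, hx,
    vtx_on.2 (Or.inr rfl), ?_⟩) (Ch.single (Or.inr ⟨some b, none, adj_b hab h0 h1,
    vtx_on.2 (Or.inr rfl), hy, ?_⟩))
  · rw [w_a, vtx_ne (by simp), sub_zero, abs_of_nonneg (x.nonneg _)]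
  · rw [w_b, vtx_ne (by simp), zero_sub, abs_neg, abs_of_nonneg (y.nonneg _)]

theorem ch_over {x y : Pt (Ins Γ hab h0 h1)} (hx : On (pj hab h0 h1 x).f a b)
    (hy : On (pj hab h0 h1 y).f a b) :
    Ch x y (Γ.w a b * |(pj hab h0 h1 x).f a - (pj hab h0 h1 y).f a|) := by
  have hw := Γ.pos hab
  have h6 : 0 < Γ.w a b - s := by linarith
  have sx := (pj hab h0 h1 x).sum hab.ne hx
  have sy := (pj hab h0 h1 y).sum hab.ne hy
  rcases Ins.over hab h0 h1 hx with hx' | hx' <;> rcases Ins.over hab h0 h1 hy with hy' | hy'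
  · have tx := x.sum (by simp) hx'
    have ty := y.sum (by simp) hy'
    refine Ch.single (Or.inr ⟨some a, none, adj_a hab h0 h1, hx', hy', ?_⟩)
    have e1 : s * |x.f (some a) - y.f (some a)| = |s * (x.f (some a) - y.f (some a))| := by
      rw [abs_mul, abs_of_pos h0]
    have e2 : Γ.w a b * |(pj hab h0 h1 x).f a - (pj hab h0 h1 y).f a| =
        |Γ.w a b * ((pj hab h0 h1 x).f a - (pj hab h0 h1 y).f a)| := by
      rw [abs_mul, abs_of_pos hw]
    rw [w_a, e1, e2]
    congr 1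
    linear_combination Γ.w a b * sx - Γ.w a b * sy - (pj_on_a hab h0 h1 hx').2 +
      (pj_on_a hab h0 h1 hy').2 - s * tx + s * ty
  · exact ch_ab hab h0 h1 hx' hy'
  · rw [abs_sub_comm]
    exact (ch_ab hab h0 h1 hy' hx').symm
  · have tx := x.sum (by simp) hx'
    have ty := y.sum (by simp) hy'
    refine Ch.single (Or.inr ⟨some b, none, adj_b hab h0 h1, hx', hy', ?_⟩)
    have e1 : (Γ.w a b - s) * |x.f (some b) - y.f (some b)| =
        |(Γ.w a b - s) * (x.f (some b) - y.f (some b))| := by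
      rw [abs_mul, abs_of_pos h6]
    have e2 : Γ.w a b * |(pj hab h0 h1 x).f a - (pj hab h0 h1 y).f a| =
        |Γ.w a b * ((pj hab h0 h1 x).f a - (pj hab h0 h1 y).f a)| := by
      rw [abs_mul, abs_of_pos hw]
    rw [w_b, e1, e2, ← abs_neg (Γ.w a b * _)]
    congr 1
    linear_combination - (pj_on_b hab h0 h1 hx').2 + (pj_on_b hab h0 h1 hy').2 -
      (Γ.w a b - s) * tx + (Γ.w a b - s) * ty

theorem pj_ch {x y : Pt (Ins Γ hab h0 h1)} {t : ℝ} (h : Loc (pj hab h0 h1 x) (pj hab h0 h1 y) t) :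
    Ch x y t := by
  rcases h with ⟨he, rfl⟩ | ⟨c, d, hcd, hx, hy, rfl⟩
  · by_cases hx : On (pj hab h0 h1 x).f a b
    · have := ch_over hab h0 h1 hx (by rwa [← he])
      rwa [he, sub_self, abs_zero, mul_zero] at this
    · have ex := pj_none hab h0 h1 hx
      rw [he] at hx
      have ey := pj_none hab h0 h1 hx
      have hxy : x = y := by
        refine Pt.ext fun c => ?_
        rcases c with _ | c
        · rw [ex, ey]
        · have := congrArg (fun z : Pt Γ => z.f c) he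
          simp only [pj_f, ex, ey, zero_mul, add_zero] at this
          exact this
      rw [hxy]
      exact Ch.nil y
  · by_cases h2 : c = a ∧ d = b
    · obtain ⟨rfl, rfl⟩ := h2
      exact ch_over hcd h0 h1 hx hy
    · by_cases h3 : c = b ∧ d = a
      · obtain ⟨rfl, rfl⟩ := h3
        have := ch_over hab h0 h1 hx.symm hy.symm
        have sx := (pj hab h0 h1 x).sum hcd.ne hx
        have sy := (pj hab h0 h1 y).sum hcd.ne hy
        rw [Γ.symm c d, ← abs_neg, show -((pj hab h0 h1 x).f c - (pj hab h0 h1 y).f c) =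
          (pj hab h0 h1 x).f d - (pj hab h0 h1 y).f d by linarith]
        exact this
      · have ex := Ins.over' hab h0 h1 hx h2 h3
        have ey := Ins.over' hab h0 h1 hy h2 h3
        refine Ch.single (Or.inr ⟨some c, some d, ⟨hcd, h2, h3⟩, ?_, ?_, ?_⟩)
        · rintro (_ | e) h4 h5
          · exact ex
          · have := hx e (by simpa using h4) (by simpa using h5)
            rwa [pj_f, ex, zero_mul, add_zero] at this
        · rintro (_ | e) h4 h5
          · exact ey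
          · have := hy e (by simpa using h4) (by simpa using h5)
            rwa [pj_f, ey, zero_mul, add_zero] at this
        · rw [pj_f, pj_f, ex, ey, zero_mul, add_zero, add_zero]
          rfl

/-- The point of the old graph on the edge `a`, `b` over which the new vertex lies. -/
theorem pj_vtx_none {x : Pt Γ} (hx : On x.f a b) (hs : Γ.w a b * x.f b = s) :
    pj hab h0 h1 (vtx none) = x := by
  have hw := Γ.pos hab
  have sx := x.sum hab.ne hx
  refine Pt.ext fun c => ?_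
  rw [pj_f, vtx_self, vtx_ne (by simp), zero_add, one_mul]
  by_cases hc : c = a
  · rw [hc, nu_a, ← hs]
    field_simp
    linarith
  · by_cases hc' : c = b
    · rw [hc', nu_b hab, ← hs]
      field_simp
    · rw [nu_c hc hc', hx c hc hc']

theorem pj_surj (x : Pt Γ) : ∃ x', pj hab h0 h1 x' = x := by
  have hw := Γ.pos hab
  by_cases hx : On x.f a b
  · have sx := x.sum hab.ne hx
    have hxa := x.nonneg a
    have hxb := x.nonneg b
    by_cases hp : Γ.w a b * x.f b ≤ s
    · -- on the edge of `a`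
      have hr : Γ.w a b * x.f b / s ≤ 1 := (div_le_one h0).2 hp
      have hr0 : 0 ≤ Γ.w a b * x.f b / s := div_nonneg (mul_nonneg hw.le hxb) h0.le
      obtain ⟨h2, h3⟩ := pj_on_a hab h0 h1 (seg_on (adj_a hab h0 h1) _ hr0 hr)
      refine ⟨seg (adj_a hab h0 h1) _ hr0 hr, Pt.eq_of_on hab.ne h2 hx ?_⟩
      rw [seg_b, mul_div_cancel₀ _ h0.ne'] at h3
      exact mul_left_cancel₀ hw.ne' h3
    · have h6 : 0 < Γ.w a b - s := by linarith
      have hr : Γ.w a b * x.f a / (Γ.w a b - s) ≤ 1 := by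
        rw [div_le_one h6]
        nlinarith
      have hr0 : 0 ≤ Γ.w a b * x.f a / (Γ.w a b - s) := div_nonneg (mul_nonneg hw.le hxa) h6.le
      obtain ⟨h2, h3⟩ := pj_on_b hab h0 h1 (seg_on (adj_b hab h0 h1) _ hr0 hr)
      refine ⟨seg (adj_b hab h0 h1) _ hr0 hr, Pt.eq_of_on hab.ne' h2.symm hx.symm ?_⟩
      rw [seg_b, mul_div_cancel₀ _ h6.ne'] at h3
      exact mul_left_cancel₀ hw.ne' h3
  · rcases x.cases with ⟨c, rfl⟩ | ⟨c, d, hcd, hon, hc, hd⟩
    · exact ⟨vtx (some c), pj_vtx hab h0 h1 c⟩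
    · refine ⟨⟨fun o => o.elim 0 x.f, ?_, Or.inr ⟨some c, some d, ⟨hcd, ?_, ?_⟩, ?_, ?_⟩⟩, ?_⟩
      · rintro (_ | e)
        · exact le_rfl
        · exact x.nonneg e
      · rintro ⟨rfl, rfl⟩
        exact hx hon
      · rintro ⟨rfl, rfl⟩
        exact hx hon.symm
      · rintro (_ | e) h4 h5
        · rfl
        · exact hon e (by simpa using h4) (by simpa using h5)
      · exact x.sum hcd.ne hon
      · refine Pt.ext fun e => ?_
        rw [pj_f]
        change x.f e + 0 * _ = x.f e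
        ring

theorem ins_sub : Sub Γ (Ins Γ hab h0 h1) (pj hab h0 h1) :=
  ⟨pj_surj hab h0 h1, fun _ _ _ h => pj_loc hab h0 h1 h, fun _ _ _ h => pj_ch hab h0 h1 h,
    fun a => ⟨some a, pj_vtx hab h0 h1 a⟩⟩

end

/-- Finitely many points are vertices of a subdivision. -/
theorem exists_sub {A : Type} (Γ : WG A) (l : List (Pt Γ)) :
    ∃ (A' : Type) (Γ' : WG A') (q : Pt Γ' → Pt Γ), Sub Γ Γ' q ∧ ∀ x ∈ l, ∃ a', q (vtx a') = x := by
  induction l with
  | nil => exact ⟨A, Γ, fun x => x, Sub.id Γ, fun x hx => by simp at hx⟩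
  | cons x l ih =>
    obtain ⟨A', Γ', q, h1, h2⟩ := ih
    obtain ⟨x', rfl⟩ := h1.surj x
    rcases x'.cases with ⟨c, rfl⟩ | ⟨a, b, hab, hon, ha, hb⟩
    · refine ⟨A', Γ', q, h1, fun y hy => ?_⟩
      rcases List.mem_cons.1 hy with rfl | hy
      · exact ⟨c, rfl⟩
      · exact h2 y hy
    · have hw := Γ'.pos hab
      have hs := x'.sum hab.ne hon
      have h3 : 0 < Γ'.w a b * x'.f b := mul_pos hw hb
      have h4 : Γ'.w a b * x'.f b < Γ'.w a b := by nlinarith
      refine ⟨Option A', Ins Γ' hab h3 h4, _, h1.comp (ins_sub hab h3 h4), fun y hy => ?_⟩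
      rcases List.mem_cons.1 hy with rfl | hy
      · exact ⟨none, by rw [pj_vtx_none hab h3 h4 hon rfl]⟩
      · obtain ⟨c, rfl⟩ := h2 y hy
        exact ⟨some c, by rw [pj_vtx]⟩

end Pool.Agent.Helper26.GT
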